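import Pool.Agent.H70.OQ.Targets

/-!
# The special rows of a table
-/

set_option autoImplicit false

namespace Pool.Agent.H70.OQ.NDV

open Pool.Agent.H6.NB Pool.Agent.H70.OQ

open Classical in
/-- The oracle with the last level peeled off. -/
noncomputable def peel (O : List Bool → Bool) (l : ℕ) : List Bool → Bool :=
  fun w => decide (∃ v : List Bool, v.length = l ∧ ¬ O (w ++ v) = true)

theorem peel_iff (O : List Bool → Bool) (l : ℕ) (w : List Bool) :
    peel O l w = true ↔ ∃ v : List Bool, v.length = l ∧ ¬ O (w ++ v) = true := by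
  unfold peel
  classical exact decide_eq_true_iff

theorem nd_peel (O : List Bool → Bool) : ∀ (m l : ℕ) (w : List Bool),
    Nd O (m + 1) l w ↔ Nd (peel O (2 ^ m * l)) m l w := by
  intro m
  induction m with
  | zero =>
    intro l w
    rw [show Nd (peel O (2 ^ 0 * l)) 0 l w = (peel O (2 ^ 0 * l) w = true) from rfl, peel_iff]
    rw [show Nd O (0 + 1) l w = ∃ v : List Bool, v.length = l ∧ ¬ O (w ++ v) = true from rfl]
    simp
  | succ m ih =>
    intro l w
    rw [show Nd (peel O (2 ^ (m + 1) * l)) (m + 1) l w =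
      ∃ v : List Bool, v.length = l ∧ ¬ Nd (peel O (2 ^ (m + 1) * l)) m (2 * l) (w ++ v) from rfl]
    rw [show Nd O (m + 1 + 1) l w =
      ∃ v : List Bool, v.length = l ∧ ¬ Nd O (m + 1) (2 * l) (w ++ v) from rfl]
    refine exists_congr fun v => and_congr_right fun _ => not_congr ?_
    rw [ih (2 * l) (w ++ v)]
    have : 2 ^ m * (2 * l) = 2 ^ (m + 1) * l := by ring
    rw [this]

theorem exists_ofFn {n : ℕ} {u : List Bool} (hu : u.length = n) :
    ∃ u' : Fin n → Bool, List.ofFn u' = u := by
  subst hu
  exact ⟨u.get, List.ofFn_get u⟩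

theorem ndv : T_NDV := by
  intro k n
  induction k with
  | zero =>
    intro O b H h x
    have h1 := h x
    change O (false :: List.ofFn x) = b x at h1
    unfold Special Nd
    rw [h1]
    simp
  | succ k ih =>
    intro O b H h x
    have h1 : Special (k + 1) O (List.ofFn x) ↔
        Special k (peel O (2 ^ (k + 1) * n)) (List.ofFn x) := by
      unfold Special
      rw [nd_peel]
      have : 2 ^ k * (2 * (List.ofFn x).length) = 2 ^ (k + 1) * n := by
        rw [List.length_ofFn]; ring
      rw [this]
    rw [h1]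
    refine ih (peel O (2 ^ (k + 1) * n)) b H.1 (fun p => ?_) x
    have h2 : ∀ y : Ys n k, O (false :: nstr n k p ++ List.ofFn y) =
        !(sv b k H.1 p && decide (y = H.2 p)) := fun y => h (p, y)
    rw [Bool.eq_iff_iff, peel_iff]
    constructor
    · rintro ⟨v, hv, hO⟩
      obtain ⟨y, rfl⟩ := exists_ofFn hv
      rw [h2 y] at hO
      by_contra hne
      simp [hne] at hO
    · intro hs
      refine ⟨List.ofFn (H.2 p : Ys n k), by simp, ?_⟩
      rw [h2]
      simp [hs]

end Pool.Agent.H70.OQ.NDV
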