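import Pool.Agent.H70.OQ.Defs

/-!
# Basic facts
-/

set_option autoImplicit false

namespace Pool.Agent.H70.OQ

open Finset Pool.Agent.H6.NB

variable {X : Type} {Y : ℕ → Type}

theorem sum_hid [Fintype X] [DecidableEq X] [∀ i, Fintype (Y i)] [∀ i, DecidableEq (Y i)] (k : ℕ)
    (F : Hid X Y (k + 1) → ℝ) :
    ∑ H, F H = ∑ H : Hid X Y k, ∑ h : Node X Y k → Y k, F (H, h) :=
  Fintype.sum_prod_type F

theorem card_hid [Fintype X] [DecidableEq X] [∀ i, Fintype (Y i)] [∀ i, DecidableEq (Y i)] (k : ℕ) :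
    Fintype.card (Hid X Y (k + 1)) = Fintype.card (Hid X Y k) *
      Fintype.card (Y k) ^ Fintype.card (Node X Y k) :=
  (Fintype.card_prod _ _).trans (by rw [Fintype.card_fun])

theorem card_hid0 [Fintype X] [DecidableEq X] [∀ i, Fintype (Y i)] [∀ i, DecidableEq (Y i)] :
    Fintype.card (Hid X Y 0) = 1 := Fintype.card_unit

theorem card_node [Fintype X] [∀ i, Fintype (Y i)] (i : ℕ) :
    Fintype.card (Node X Y (i + 1)) = Fintype.card (Node X Y i) * Fintype.card (Y i) :=
  Fintype.card_prod _ _

theorem card_node0 [Fintype X] [∀ i, Fintype (Y i)] :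
    Fintype.card (Node X Y 0) = Fintype.card X := rfl

theorem sv_succ [∀ i, DecidableEq (Y i)] (b : X → Bool) (k : ℕ) (H : Hid X Y k)
    (h : Node X Y k → Y k) : sv b (k + 1) (H, h) = glu h (sv b k H) := rfl

theorem tabT_succ [∀ i, DecidableEq (Y i)] (k : ℕ) (H : Hid X Y k)
    (h : Node X Y k → Y k) : tabT (k + 1) (H, h) = glu h (tabT k H) := rfl

theorem tabU_succ [DecidableEq X] [∀ i, DecidableEq (Y i)] (k : ℕ) (H : Hid X Y k)
    (h : Node X Y k → Y k) (x : X) : tabU (k + 1) (H, h) x = glu h (tabU k H x) := rfl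

theorem cast_two (q : ℝ) : (2 : ℝ) * q = q + q := by ring

/-- number of nodes of a stage -/
theorem card_Nn (n i : ℕ) : Fintype.card (Nn n i) = 2 ^ ((2 ^ (i + 1) - 1) * n) := by
  induction i with
  | zero => rw [card_node0]; simp
  | succ i ih =>
    rw [card_node, ih, Fintype.card_fun, Fintype.card_bool, Fintype.card_fin, ← pow_add, ← add_mul]
    congr 2
    have : 1 ≤ 2 ^ (i + 1) := Nat.one_le_two_pow
    rw [pow_succ 2 (i + 1)]
    omega

/-- The row of a node. -/
def row : (k : ℕ) → Node X Y k → X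
  | 0, p => p
  | k + 1, p => row k p.1

/-- The value of a node depends only on the value of its row. -/
theorem sv_row [∀ i, DecidableEq (Y i)] (b b' : X → Bool) (k : ℕ) (H : Hid X Y k)
    (p : Node X Y k) (h : b (row k p) = b' (row k p)) : sv b k H p = sv b' k H p := by
  induction k with
  | zero => exact h
  | succ k ih =>
    have h1 := ih H.1 p.1 h
    change glu H.2 (sv b k H.1) p = glu H.2 (sv b' k H.1) p
    unfold glu
    rw [h1]

/-- At most one row changes a position of the table. -/
theorem card_row [Fintype X] [DecidableEq X] [∀ i, DecidableEq (Y i)] (k : ℕ) (H : Hid X Y k)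
    (p : Node X Y k) : (univ.filter fun x => tabU k H x p ≠ tabT k H p).card ≤ 1 := by
  refine le_trans (card_le_card (t := {row k p}) fun x hx => ?_) (by simp)
  rw [mem_filter] at hx
  rw [mem_singleton]
  by_contra hne
  refine hx.2 (sv_row _ _ k H p ?_)
  have : row k p ≠ x := fun e => hne e.symm
  simp [this]

/-- there are hidden choices -/
theorem hid_nonempty [∀ i, Nonempty (Y i)] (k : ℕ) : Nonempty (Hid X Y k) := by
  induction k with
  | zero => exact ⟨()⟩
  | succ k ih =>
    obtain ⟨H⟩ := ih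
    exact ⟨(H, fun _ => Classical.arbitrary _)⟩

end Pool.Agent.H70.OQ
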