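import Pool.Agent.H70.OQ.Targets

/-!
# One stage of the construction
-/

set_option autoImplicit false

namespace Pool.Agent.H70.OQ.SGG

open Pool.Agent.H6.NB Pool.Agent.H70.OQ Finset Filter

/-- The encrypted answers of the stage solve the recursion. -/
theorem fixed (hCLH : T_CLH) (hLKG : T_LKG) {A : List Bool → (List Bool → Bool) → Prop}
    (hA : LocA A) {k n a : ℕ} (hn : 2 ≤ n) {σ₀ O₀ O : List Bool → Bool} (h0 : Bldg A σ₀ O₀)
    {T : Nn n k → Bool} {κ : Om n (2 ^ a) → Bool}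
    {P : Blk (fun s : Om n (2 ^ a) => ns s.1) fun s => qs s.1}
    (hO : Bldg A (sdg k n (2 ^ a) σ₀ T κ P) O)
    {D : Om n (2 ^ a) → (Cg k n (2 ^ a) → Bool) → Bool}
    (hD : ∀ (s : Om n (2 ^ a)) T e P, (A s.1 (fun w => vlG T e P (clg k n (2 ^ a) O₀ w)) ↔
      accG D P s T e = true)) (s : Om n (2 ^ a)) :
    O (key s.1) = xor (accG D P s T fun s => O (key s.1)) (κ s) := by
  classical
  rw [hO (key s.1)]
  have h1 : sdg k n (2 ^ a) σ₀ T κ P (key s.1) = κ s := by
    unfold sdg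
    rw [(hCLH k n (2 ^ a) σ₀).2.1 s]
    rfl
  have h2 : (∃ s', key s.1 = key s' ∧ A s' O) ↔
      accG D P s T (fun s => O (key s.1)) = true := by
    rw [← hD s T (fun s => O (key s.1)) P]
    have h3 : (∃ s', key s.1 = key s' ∧ A s' O) ↔ A s.1 O := by
      constructor
      · rintro ⟨s', hs', h⟩
        have : s.1 = s' := by
          unfold key at hs'
          simpa using hs'
        rw [this]; exact h
      · intro h
        exact ⟨s.1, rfl, h⟩
    rw [h3]
    refine hA s.1 _ _ fun w hw => hLKG k A n (2 ^ a) σ₀ O₀ O T κ P hA hn h0 hO w ?_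
    have h4 : w.length ≤ w.length ^ 2 := Nat.le_self_pow (by norm_num) _
    exact h4.trans (hw.trans s.2.2.le)
  rw [h1, Bool.xor_comm]
  congr 1
  rcases hb : accG D P s T (fun s => O (key s.1)) with _ | _
  · rw [decide_eq_false_iff_not, h2, hb]; simp
  · rw [decide_eq_true_iff, h2, hb]

/-- The seed of the stage allows to read all keys. -/
theorem dec_all (hCLH : T_CLH) (hCOD : T_COD) {k n a : ℕ} {σ₀ : List Bool → Bool}
    (hσ : ∀ s, Dec σ₀ s) {T : Nn n k → Bool} {κ : Om n (2 ^ a) → Bool}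
    {P : Blk (fun s : Om n (2 ^ a) => ns s.1) fun s => qs s.1}
    (hP : ∀ s : Om n (2 ^ a), DecA (qs s.1) (ns s.1) (κ s) (P s)) (s : List Bool) :
    Dec (sdg k n (2 ^ a) σ₀ T κ P) s := by
  classical
  obtain ⟨-, h2, h3, h4⟩ := hCLH k n (2 ^ a) σ₀
  by_cases hs : n ^ 2 ≤ s.length ∧ s.length < n ^ 2 ^ a
  · have h := hP ⟨s, hs⟩
    unfold Dec
    have e1 : sdg k n (2 ^ a) σ₀ T κ P (key s) = κ ⟨s, hs⟩ := by
      unfold sdg
      have := h2 ⟨s, hs⟩
      simp only at this
      rw [this]; rfl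
    have e2 : (fun i : Fin (ns s) => cpy (sdg k n (2 ^ a) σ₀ T κ P) s i) = P ⟨s, hs⟩ := by
      funext i v
      unfold cpy sdg
      have := h3 ⟨s, hs⟩ i v
      simp only at this
      rw [this]; rfl
    rw [e1, e2]
    exact h
  · have e1 : sdg k n (2 ^ a) σ₀ T κ P (key s) = σ₀ (key s) := by
      unfold sdg
      rcases h4 (key s) with ⟨p, h⟩ | ⟨s', h⟩ | ⟨s', i, v, h⟩ | h
      · simp [key] at h
      · exfalso
        have : s = s'.1 := by simpa [key] using h
        exact hs (this ▸ s'.2)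
      · simp [key, blk] at h
      · rw [h]; rfl
    have e2 : ∀ i : ℕ, cpy (sdg k n (2 ^ a) σ₀ T κ P) s i = cpy σ₀ s i := by
      intro i
      funext v
      unfold cpy sdg
      rcases h4 (blk s i v.1 (List.ofFn v.2)) with ⟨p, h⟩ | ⟨s', h⟩ | ⟨s', i', v', h⟩ | h
      · simp [blk] at h
      · simp [key, blk] at h
      · exfalso
        have h' : code s (List.ofFn v.2) (2 * i + v.1.toNat) =
            code s'.1 (List.ofFn v'.2) (2 * i' + v'.1.toNat) := by
          simpa [blk] using h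
        have : s = s'.1 := (hCOD.1 _ _ _ _ _ _ h').1
        exact hs (this ▸ s'.2)
      · rw [h]; rfl
    unfold Dec
    rw [e1]
    simp only [e2]
    exact hσ s

/-- At every short string only few rows matter. -/
theorem few (hLKG : T_LKG) {A : List Bool → (List Bool → Bool) → Prop}
    (hA : LocA A) {k n a : ℕ} (hn : 2 ≤ n) {σ₀ O₀ O₁ : List Bool → Bool} (h0 : Bldg A σ₀ O₀)
    {H : Hid (Fin n → Bool) (Ys n) k} {κ : Om n (2 ^ a) → Bool}
    {P : Blk (fun s : Om n (2 ^ a) => ns s.1) fun s => qs s.1}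
    (h1 : Bldg A (sdg k n (2 ^ a) σ₀ (tabT k H) κ P) O₁) {O : (Fin n → Bool) → List Bool → Bool}
    (hO : ∀ x, Bldg A (sdg k n (2 ^ a) σ₀ (tabU k H x) κ P) (O x)) {M : ℕ} (hM : 1 ≤ M)
    (hK : ∀ s : Om n (2 ^ a), (univ.filter fun x => O x (key s.1) ≠ O₁ (key s.1)).card ≤ M)
    (w : List Bool) (hw : w.length ≤ n ^ 2 ^ a) : (univ.filter fun x => O x w ≠ O₁ w).card ≤ M := by
  classical
  have e1 := hLKG k A n (2 ^ a) σ₀ O₀ O₁ (tabT k H) κ P hA hn h0 h1 w hw
  have e2 := fun x => hLKG k A n (2 ^ a) σ₀ O₀ (O x) (tabU k H x) κ P hA hn h0 (hO x) w hw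
  rcases hc : clg k n (2 ^ a) O₀ w with b | p | s | ⟨s, i, v⟩
  · have : (univ.filter fun x => O x w ≠ O₁ w) = ∅ := by
      refine filter_eq_empty_iff.2 fun x _ => ?_
      rw [e1, e2 x, hc]; simp [vlG]
    rw [this]; simp
  · refine le_trans (card_le_card ?_) ((card_row k H p).trans hM)
    intro x hx
    rw [mem_filter] at hx ⊢
    refine ⟨mem_univ _, ?_⟩
    have := hx.2
    rw [e1, e2 x, hc] at this
    exact this
  · refine le_trans (card_le_card ?_) (hK s)
    intro x hx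
    rw [mem_filter] at hx ⊢
    refine ⟨mem_univ _, ?_⟩
    have := hx.2
    rw [e1, e2 x, hc] at this
    exact this
  · have : (univ.filter fun x => O x w ≠ O₁ w) = ∅ := by
      refine filter_eq_empty_iff.2 fun x _ => ?_
      rw [e1, e2 x, hc]; simp [vlG]
    rw [this]; simp

/-- The length of the strings of the table. -/
theorem base_len (hNST : T_NST) {k n : ℕ} (p : Nn n k) : n ≤ (nstr n k p).length := by
  rw [(hNST n k).1 p]
  refine Nat.le_mul_of_pos_left n ?_
  have : 2 ≤ 2 ^ (k + 1) := by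
    calc 2 = 2 ^ 1 := by norm_num
      _ ≤ 2 ^ (k + 1) := Nat.pow_le_pow_right (by norm_num) (by omega)
  omega

/-- The seed of the stage agrees with the old seed on very short strings. -/
theorem short_eq (hCLH : T_CLH) (hNST : T_NST) (hCOD : T_COD) {k n a : ℕ} (hn : 2 ≤ n)
    {σ₀ : List Bool → Bool} {T : Nn n k → Bool} {κ : Om n (2 ^ a) → Bool}
    {P : Blk (fun s : Om n (2 ^ a) => ns s.1) fun s => qs s.1} (w : List Bool) (hw : w.length < n) :
    sdg k n (2 ^ a) σ₀ T κ P w = σ₀ w := by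
  unfold sdg
  have hnn : n ≤ n ^ 2 := Nat.le_self_pow (by norm_num) n
  rcases (hCLH k n (2 ^ a) σ₀).2.2.2 w with ⟨p, h⟩ | ⟨s', h⟩ | ⟨s', i, v, h⟩ | h
  · exfalso
    have := base_len hNST p
    rw [h] at hw
    simp only [List.length_cons] at hw
    omega
  · exfalso
    have := s'.2.1
    rw [h] at hw
    simp [key] at hw
    omega
  · exfalso
    have := s'.2.1
    rw [h] at hw
    simp only [blk, List.length_cons, hCOD.2] at hw
    omega
  · rw [h]; rfl

theorem exists_ofFn {n : ℕ} {u : List Bool} (hu : u.length = n) :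
    ∃ u' : Fin n → Bool, List.ofFn u' = u := by
  subst hu
  exact ⟨u.get, List.ofFn_get u⟩

/-- The tables of other lengths are unchanged. -/
theorem sd_other (hCLH : T_CLH) (hNST : T_NST) {k n a n' : ℕ} {σ₀ : List Bool → Bool}
    {T : Nn n k → Bool} {κ : Om n (2 ^ a) → Bool}
    {P : Blk (fun s : Om n (2 ^ a) => ns s.1) fun s => qs s.1} {w : List Bool} (hne : n' ≠ n)
    (hw : w.length = (2 ^ (k + 1) - 1) * n') :
    sdg k n (2 ^ a) σ₀ T κ P (false :: w) = σ₀ (false :: w) := by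
  unfold sdg
  rcases (hCLH k n (2 ^ a) σ₀).2.2.2 (false :: w) with ⟨p, h⟩ | ⟨s', h⟩ | ⟨s', i, v', h⟩ | h
  · exfalso
    have h1 : w = nstr n k p := by simpa using h
    have h2 := (hNST n k).1 p
    rw [← h1, hw] at h2
    have h3 : 0 < 2 ^ (k + 1) - 1 := by
      have : 2 ≤ 2 ^ (k + 1) := by
        calc 2 = 2 ^ 1 := by norm_num
          _ ≤ 2 ^ (k + 1) := Nat.pow_le_pow_right (by norm_num) (by omega)
      omega
    exact hne (Nat.eq_of_mul_eq_mul_left h3 h2)
  · simp [key] at h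
  · simp [blk] at h
  · rw [h]; rfl

theorem spec_n (hCLH : T_CLH) (hNDV : T_NDV) {k n a : ℕ} {σ₀ : List Bool → Bool}
    {H : Hid (Fin n → Bool) (Ys n) k} {κ : Om n (2 ^ a) → Bool}
    {P : Blk (fun s : Om n (2 ^ a) => ns s.1) fun s => qs s.1} {x : Fin n → Bool} (u : List Bool)
    (hu : u.length = n) : Special k (sdg k n (2 ^ a) σ₀ (tabU k H x) κ P) u ↔ u = List.ofFn x := by
  obtain ⟨u', rfl⟩ := exists_ofFn hu
  rw [hNDV k n _ (fun x' => !decide (x' = x)) H (fun p => by
    unfold sdg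
    rw [(hCLH k n (2 ^ a) σ₀).1 p]
    rfl) u']
  constructor
  · intro h
    have : u' = x := by simpa using h
    rw [this]
  · intro h
    have : u' = x := List.ofFn_injective h
    simp [this]

theorem one_sd (hCLH : T_CLH) (hNST : T_NST) (hNDV : T_NDV) (hSPC : T_SPC) {k n a : ℕ}
    {σ₀ : List Bool → Bool} (h0 : OneSpecial k σ₀) {H : Hid (Fin n → Bool) (Ys n) k}
    {κ : Om n (2 ^ a) → Bool} {P : Blk (fun s : Om n (2 ^ a) => ns s.1) fun s => qs s.1}
    (x : Fin n → Bool) : OneSpecial k (sdg k n (2 ^ a) σ₀ (tabU k H x) κ P) := by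
  intro n'
  by_cases hn : n' = n
  · subst hn
    refine ⟨List.ofFn x, ⟨by simp, (spec_n hCLH hNDV _ (by simp)).2 rfl⟩, fun u' hu' => ?_⟩
    exact (spec_n hCLH hNDV _ hu'.1).1 hu'.2
  · have key : ∀ u : List Bool, u.length = n' →
        (Special k (sdg k n (2 ^ a) σ₀ (tabU k H x) κ P) u ↔ Special k σ₀ u) := by
      intro u hu
      refine hSPC k _ _ u fun w hw => ?_
      rw [hu] at hw
      exact sd_other hCLH hNST hn hw
    obtain ⟨u, hu, h2⟩ := h0 n'
    refine ⟨u, ⟨hu.1, (key u hu.1).2 hu.2⟩, fun u' hu' => h2 u' ⟨hu'.1, (key u' hu'.1).1 hu'.2⟩⟩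

/-- The value of the oracle at the table. -/
theorem bld_base {A : List Bool → (List Bool → Bool) → Prop} {σ O : List Bool → Bool}
    (h : Bldg A σ O) (w : List Bool) : O (false :: w) = σ (false :: w) := by
  rw [h]
  simp [key]

theorem special_bld (hSPC : T_SPC) {A : List Bool → (List Bool → Bool) → Prop}
    {σ O : List Bool → Bool} (h : Bldg A σ O) (k : ℕ) (u : List Bool) :
    Special k O u ↔ Special k σ u := hSPC k _ _ u fun w _ => bld_base h w

theorem hlang_iff (hCLH : T_CLH) (hNDV : T_NDV) (hSPC : T_SPC)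
    {A : List Bool → (List Bool → Bool) → Prop} {k n a : ℕ} {σ₀ O : List Bool → Bool}
    {H : Hid (Fin n → Bool) (Ys n) k} {κ : Om n (2 ^ a) → Bool}
    {P : Blk (fun s : Om n (2 ^ a) => ns s.1) fun s => qs s.1} {x : Fin n → Bool}
    (h1 : Bldg A (sdg k n (2 ^ a) σ₀ (tabU k H x) κ P) O) :
    List.replicate n false ∈ hlang k O ↔ (List.ofFn x).head? = some true := by
  unfold hlang
  simp only [Set.mem_ofPred_eq, List.length_replicate]
  constructor
  · rintro ⟨u, hu, hh, h⟩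
    have : u = List.ofFn x :=
      (spec_n (σ₀ := σ₀) (H := H) (κ := κ) (P := P) hCLH hNDV u hu).1 ((special_bld hSPC h1 k u).1 h)
    rw [← this]; exact hh
  · intro h
    exact ⟨List.ofFn x, by simp, h, (special_bld hSPC h1 k _).2 ((spec_n hCLH hNDV _ (by simp)).2 rfl)⟩

/-- Correctness depends only on short strings. -/
theorem correct_congr (hPCG : T_PCG) (hBUG : T_BUG) (hSPC : T_SPC)
    {A : List Bool → (List Bool → Bool) → Prop} (hA : LocA A) {k n L : ℕ}
    (hn : 2 ^ (k + 1) * n + 1 ≤ L) {Q : QAlg} {m : ℕ} (hQ : Q.Short m)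
    (hm : m ≤ L) {σ σ' O O' : List Bool → Bool} (h : Bldg A σ O) (h' : Bldg A σ' O')
    (he : ∀ w : List Bool, w.length ≤ L → σ' w = σ w)
    (hc : Correct Q O' (hlang k O') (List.replicate n false)) :
    Correct Q O (hlang k O) (List.replicate n false) := by
  have h1 : ∀ w : List Bool, w.length ≤ L → O' w = O w := hBUG A σ' σ O' O L hA h' h he
  have h2 : Q.prob O' = Q.prob O := hPCG Q O' O fun i w hw => h1 w ((hQ i w hw).trans hm)
  have h3 : List.replicate n false ∈ hlang k O' ↔ List.replicate n false ∈ hlang k O := by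
    unfold hlang
    simp only [Set.mem_ofPred_eq, List.length_replicate]
    refine exists_congr fun u => and_congr_right fun hu => and_congr_right fun _ => ?_
    refine hSPC k _ _ u fun w hw => h1 _ ?_
    rw [List.length_cons, hw, hu]
    have : (2 ^ (k + 1) - 1) * n ≤ 2 ^ (k + 1) * n := Nat.mul_le_mul_right _ (Nat.sub_le _ _)
    omega
  unfold Correct at hc ⊢
  rw [← h3, ← h2]
  exact hc

theorem sgg (h1 : T_EXJ) (hTBL : T_TBL) (h2 : T_BBV) (h3 : T_PCG) (h4 : T_BLG) (h5 : T_BUG)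
    (h7 : T_CLH) (hNST : T_NST) (h8 : T_COD) (h9 : T_LKG) (h10 : T_FMG) (hLAK : T_LAK) (h12 : T_FIS)
    (h13 : T_NUM) (h14 : T_PRG) (h15 : T_L12) (h16 : T_EXG) (h17 : T_MEG) (hNDV : T_NDV)
    (hSPC : T_SPC) : T_SGG := by
  classical
  intro k c C ε hε prog hs
  have hA : LocA (acck (k + 1) prog) := hLAK (k + 1) prog hs
  obtain ⟨a, ha⟩ := h14 k c (4 * C) ε hε
  filter_upwards [ha] with n hn Q hQ hT σ₀ hσ hone
  obtain ⟨t, S', M, w', w0, w, r, K, δ, δm, hn2, hnc, hn1, hnt, hw01, htw0, hKw, herr, hPrm, hδm,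
    hδ4, h2S, htS, hKM, hM1, hMS, hbig, hw1, hL, hfin⟩ := hn
  have : Finite (Om n (2 ^ a)) := h12.2.1 n (2 ^ a)
  let inst : Fintype (Om n (2 ^ a)) := Fintype.ofFinite _
  obtain ⟨hcard, hsum⟩ := h12.2.2 n (2 ^ a)
  obtain ⟨O₀, h0⟩ := h4 _ hA σ₀
  obtain ⟨D, hSys, hD⟩ := h10 (k + 1) prog n a t O₀ hs hn2 hnt
  have hX : Fintype.card (Fin n → Bool) = 2 ^ n := by simp
  have hlen : ∀ s : Om n (2 ^ a), n ≤ s.1.length := fun s =>
    (Nat.le_self_pow (by norm_num) n).trans s.2.1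
  have hq : (1 : ℝ) / 4 ≥ 2 / 2 ^ n ^ 2 := by
    have : (8 : ℝ) ≤ 2 ^ n ^ 2 := by
      calc (8 : ℝ) = 2 ^ 3 := by norm_num
        _ ≤ 2 ^ n ^ 2 := pow_le_pow_right₀ (by norm_num) (by nlinarith)
    rw [ge_iff_le, div_le_div_iff₀ (by positivity) (by norm_num)]
    linarith
  have : Nonempty (Hid (Fin n → Bool) (Ys n) (k + 1)) := hid_nonempty (k + 1)
  -- the base of the induction
  have hw0 : (0 : ℝ) < w0 := by exact_mod_cast hw01
  have hbase : ∀ f : (Nn n (k + 1) → Bool) → Bool, Fm (2 ^ t) t (k + 1) f →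
      ((univ.filter fun p : Hid (Fin n → Bool) (Ys n) (k + 1) => K 0 < (univ.filter fun x =>
        f (tabU (k + 1) p x) ≠ f (tabT (k + 1) p)).card).card : ℝ) ≤
        δ 0 * Fintype.card (Hid (Fin n → Bool) (Ys n) (k + 1)) := by
    intro f hf
    have h := hTBL (Fin n → Bool) (Ys n) k (2 ^ t) t w0 (2 ^ n) (K 0) (1 / (64 * w0)) hw01 htw0
      (by positivity) (by rw [mul_one_div, div_self (by positivity)]) hKw Nat.one_le_two_pow
      (fun i _ => by
        have e1 : Fintype.card (Node (Fin n → Bool) (Ys n) i) = 2 ^ ((2 ^ (i + 1) - 1) * n) :=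
          card_Nn n i
        rw [e1, Fintype.card_fun, Fintype.card_bool, Fintype.card_fin, ← pow_add]
        refine Nat.pow_le_pow_right (by norm_num) (le_of_eq ?_)
        have : 1 ≤ 2 ^ (i + 1) := Nat.one_le_two_pow
        obtain ⟨m, hm⟩ : ∃ m, 2 ^ (i + 1) = m + 1 := ⟨2 ^ (i + 1) - 1, by omega⟩
        rw [hm]
        simp only [Nat.add_sub_cancel]
        ring) f hf
    refine h.trans ?_
    exact mul_le_mul_of_nonneg_right herr (by positivity)
  obtain ⟨H, κ, P, hTyp, hDec⟩ := h1 (Hid (Fin n → Bool) (Ys n) (k + 1)) (Fin n → Bool)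
    (Nn n (k + 1)) (Om n (2 ^ a)) (fun s => ns s.1) (fun s => qs s.1) (fun p => tabT (k + 1) p)
    (fun p => tabU (k + 1) p) D (fun s => lv n s.1) (2 ^ t) t (k + 1) a S' M w r K δ δm (2 ^ n - 1)
    hSys (by rw [hX]; exact hPrm) hbase hδm (by rw [hX]; exact Nat.one_le_two_pow) h2S htS htS hKM
    hMS (by rw [hX]; exact (Nat.mul_le_mul_right _ hcard).trans hbig)
    (fun s => by simp only [qs]; omega)
    (fun s f hf => by
      have e0 : (k + 1 + 5) * a + 2 = (k + 6) * a + 1 + 1 := by ring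
      rw [e0] at hf
      have := h15 (VV (qs s.1)) S' ((k + 6) * a + 1) w' f hw1 hf
      refine this.trans ?_
      have hc : (Fintype.card (VV (qs s.1)) : ℝ) = 2 * 2 ^ qs s.1 := by
        have : Fintype.card (VV (qs s.1)) = 2 * 2 ^ qs s.1 := by simp [VV]
        rw [this]; push_cast; rfl
      rw [hc]
      have h := hL (qs s.1) (by have := s.2.2; simp only [qs]; omega)
      have e1 : (k + 6) * a + 1 + 1 = (k + 6) * a + 2 := rfl
      rw [e1]
      linarith)
    (by
      have hδ0 : (0 : ℝ) ≤ δm := by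
        by_contra hneg
        push Not at hneg
        rcases Nat.eq_zero_or_pos a with ha0 | ha0
        · rw [ha0] at hn1
          have h3 : 1 ≤ 2 ^ (k + 2) := Nat.one_le_two_pow
          have h4 := Nat.mul_le_mul_right n h3
          simp only [pow_zero, pow_one] at hn1
          omega
        · have := hPrm.δ_nonneg 0
          have h3 := hδm 0 ha0
          linarith
      refine le_trans (mul_le_mul_of_nonneg_right (b := ((Fintype.card (Om n (2 ^ a)) : ℕ) : ℝ))
        (c := (2 : ℝ) ^ n ^ 2 ^ a) ?_ hδ0) hδ4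
      exact_mod_cast hcard)
    (by
      refine le_trans (sum_le_sum fun s _ => ?_) (hsum.trans hq)
      refine le_trans ?_ (h13 s.1).1
      refine mul_le_mul_of_nonneg_left ?_ (by positivity)
      refine div_le_div_of_nonneg_right ?_ (by positivity)
      rw [sub_add_cancel]
      exact pow_le_pow_right₀ (by norm_num) (hlen s))
    (by
      refine le_trans (sum_le_sum fun s _ => ?_) (hsum.trans hq)
      exact (h13 s.1).2)
  have hLvl := (h17 (Nn n (k + 1)) (Om n (2 ^ a)) (fun s => ns s.1)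
    (fun s => qs s.1) D (fun s => lv n s.1) (2 ^ t) t (k + 1) a hSys P).1
  obtain ⟨-, hun, -, -⟩ := h16 (Nn n (k + 1)) (Om n (2 ^ a)) (accG D P)
    (fun s => lv n s.1) a hLvl
  obtain ⟨O₁, hO₁⟩ := h4 _ hA (sdg (k + 1) n (2 ^ a) σ₀ (tabT (k + 1) H) κ P)
  have hOx := fun x => h4 _ hA (sdg (k + 1) n (2 ^ a) σ₀ (tabU (k + 1) H x) κ P)
  choose O hO using hOx
  have hf1 := fixed h7 h9 hA hn2 h0 hO₁ hD
  have hfx := fun x => fixed h7 h9 hA hn2 h0 (hO x) hD
  have e1 : (fun s : Om n (2 ^ a) => O₁ (key s.1)) = elG (accG D P) (tabT (k + 1) H) κ a :=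
    hun (tabT (k + 1) H) κ _ hf1
  have ex1 : ∀ x, (fun s : Om n (2 ^ a) => O x (key s.1)) = elG (accG D P) (tabU (k + 1) H x) κ a :=
    fun x => hun (tabU (k + 1) H x) κ _ (hfx x)
  have etht : thG (accG D P) (tabT (k + 1) H) (fun s : Om n (2 ^ a) => O₁ (key s.1)) = κ := by
    funext s
    have h := hf1 s
    change xor (O₁ (key s.1)) (accG D P s (tabT (k + 1) H) fun s => O₁ (key s.1)) = κ s
    generalize (accG D P s (tabT (k + 1) H) fun s => O₁ (key s.1)) = b at h ⊢
    rw [h]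
    cases b <;> cases κ s <;> rfl
  have hex : ∀ x, exG (accG D P) a (tabT (k + 1) H) (tabU (k + 1) H x)
      (fun s : Om n (2 ^ a) => O₁ (key s.1)) = fun s => O x (key s.1) := by
    intro x
    unfold exG
    rw [etht, ex1 x]
  have hK : ∀ s : Om n (2 ^ a), (univ.filter fun x => O x (key s.1) ≠ O₁ (key s.1)).card ≤ M := by
    intro s
    have ht := hTyp s (hSys.lt s)
    rw [← e1] at ht
    refine le_trans (le_of_eq ?_) (ht.trans (hKM _ (hSys.lt s)))
    congr 1
    unfold dsG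
    refine filter_congr fun x _ => ?_
    unfold dlG
    rw [hex x]
    simp only []
    cases O x (key s.1) <;> cases O₁ (key s.1) <;> simp
  -- a good row with a prescribed first bit
  have hgood : ∀ b : Bool, ∃ x : Fin n → Bool, (List.ofFn x).head? = some b ∧
      |Q.prob (O x) - Q.prob O₁| < 1 / 6 := by
    intro b
    obtain ⟨m, hm⟩ : ∃ m, n = m + 1 := ⟨n - 1, by omega⟩
    let f : (Fin m → Bool) → (Fin n → Bool) := fun y i =>
      (Fin.cons b y : Fin (m + 1) → Bool) (Fin.cast hm i)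
    have hf : Function.Injective f := by
      intro y y' h
      have h' : (Fin.cons b y : Fin (m + 1) → Bool) = Fin.cons b y' := by
        funext i
        have := congrFun h (Fin.cast hm.symm i)
        simpa [f] using this
      exact (Fin.cons_injective2 h').2
    have hhead : ∀ y, (List.ofFn (f y)).head? = some b := by
      intro y
      subst hm
      simp [f]
    obtain ⟨y, hy⟩ := h2 (Fin m → Bool) Q O₁ (fun y => O (f y)) M fun i w' hw' => by
      refine le_trans ?_ (few h9 hA hn2 h0 hO₁ hO hM1 hK w' ((hQ i w' hw').trans hnc))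
      rw [← card_map ⟨f, hf⟩]
      refine card_le_card fun x hx => ?_
      rw [Finset.mem_map] at hx
      obtain ⟨y, hy, rfl⟩ := hx
      rw [mem_filter] at hy ⊢
      exact ⟨mem_univ _, hy.2⟩
    refine ⟨f y, hhead y, lt_of_le_of_lt hy ?_⟩
    have hcm : (Fintype.card (Fin m → Bool) : ℝ) = 2 ^ m := by simp
    rw [hcm]
    have hs2 : √((M : ℝ) / 2 ^ m) ≤ 2 * √((M : ℝ) / 2 ^ n) := by
      rw [show (M : ℝ) / 2 ^ m = 2 * ((M : ℝ) / 2 ^ n) by rw [hm, pow_succ]; field_simp,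
        Real.sqrt_mul (by norm_num)]
      refine mul_le_mul_of_nonneg_right ?_ (Real.sqrt_nonneg _)
      rw [Real.sqrt_le_left (by norm_num)]
      norm_num
    have hT' : 4 * (Q.T : ℝ) * √((M : ℝ) / 2 ^ m) ≤
        4 * (C * 2 ^ ((1 / 2 - ε) * n)) * (2 * √((M : ℝ) / 2 ^ n)) :=
      mul_le_mul (mul_le_mul_of_nonneg_left hT (by norm_num)) hs2 (Real.sqrt_nonneg _)
        (by positivity)
    refine lt_of_le_of_lt hT' ?_
    push_cast at hfin
    nlinarith [hfin]
  obtain ⟨x₁, hb1, hx1⟩ := hgood true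
  obtain ⟨x₀, hb0, hx0⟩ := hgood false
  by_cases hc : Correct Q (O x₁) (hlang (k + 1) (O x₁)) (List.replicate n false)
  · refine ⟨sdg (k + 1) n (2 ^ a) σ₀ (tabU (k + 1) H x₀) κ P, n ^ 2 ^ a,
      fun w hw => short_eq h7 hNST h8 hn2 w hw,
      dec_all h7 h8 hσ hDec, one_sd h7 hNST hNDV hSPC hone x₀, fun σ' O' he hB hcor => ?_⟩
    have hcx := correct_congr h3 h5 hSPC hA hn1 hQ hnc (hO x₀) hB he hcor
    have p1 := hc.1 ((hlang_iff h7 hNDV hSPC (hO x₁)).2 hb1)
    have p0 := hcx.2 (fun h => by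
      have := (hlang_iff h7 hNDV hSPC (hO x₀)).1 h
      rw [hb0] at this
      simp at this)
    have q1 := abs_lt.1 hx1
    have q0 := abs_lt.1 hx0
    linarith [q1.1, q1.2, q0.1, q0.2]
  · exact ⟨sdg (k + 1) n (2 ^ a) σ₀ (tabU (k + 1) H x₁) κ P, n ^ 2 ^ a,
      fun w hw => short_eq h7 hNST h8 hn2 w hw,
      dec_all h7 h8 hσ hDec, one_sd h7 hNST hNDV hSPC hone x₁, fun σ' O' he hB hcor =>
        hc (correct_congr h3 h5 hSPC hA hn1 hQ hnc (hO x₁) hB he hcor)⟩

end Pool.Agent.H70.OQ.SGG
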