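import Pool.Agent.H70.OQ.Targets

/-!
# Specialness depends only on the strings of one length
-/

set_option autoImplicit false

namespace Pool.Agent.H70.OQ.SPC

open Pool.Agent.H6.NB Pool.Agent.H70.OQ

theorem nd_congr (O O' : List Bool → Bool) : ∀ (m l : ℕ) (w : List Bool),
    (∀ v : List Bool, v.length = (2 ^ m - 1) * l → O (w ++ v) = O' (w ++ v)) →
    (Nd O m l w ↔ Nd O' m l w) := by
  intro m
  induction m with
  | zero =>
    intro l w h
    have := h [] (by simp)
    rw [List.append_nil] at this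
    unfold Nd
    rw [this]
  | succ m ih =>
    intro l w h
    unfold Nd
    refine exists_congr fun v => and_congr_right fun hv => not_congr (ih (2 * l) (w ++ v) ?_)
    intro v' hv'
    rw [List.append_assoc]
    refine h (v ++ v') ?_
    rw [List.length_append, hv, hv']
    have h1 : 1 ≤ 2 ^ m := Nat.one_le_two_pow
    obtain ⟨c, hc⟩ : ∃ c, 2 ^ m = c + 1 := ⟨2 ^ m - 1, by omega⟩
    have h2 : 2 ^ (m + 1) = 2 * (c + 1) := by rw [pow_succ, hc]; ring
    rw [h2, hc]
    have e1 : c + 1 - 1 = c := by omega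
    have e2 : 2 * (c + 1) - 1 = 2 * c + 1 := by omega
    rw [e1, e2]
    ring

theorem spc : T_SPC := by
  intro k O O' u h
  unfold Special
  refine not_congr (nd_congr O O' k (2 * u.length) (false :: u) fun v hv => ?_)
  rw [List.cons_append]
  refine h (u ++ v) ?_
  rw [List.length_append, hv]
  have h1 : 1 ≤ 2 ^ k := Nat.one_le_two_pow
  obtain ⟨c, hc⟩ : ∃ c, 2 ^ k = c + 1 := ⟨2 ^ k - 1, by omega⟩
  have h2 : 2 ^ (k + 1) = 2 * (c + 1) := by rw [pow_succ, hc]; ring
  rw [h2, hc]
  have e1 : c + 1 - 1 = c := by omega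
  have e2 : 2 * (c + 1) - 1 = 2 * c + 1 := by omega
  rw [e1, e2]
  ring

end Pool.Agent.H70.OQ.SPC
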