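import Pool.Agent.H70.OQ.Targets
import Pool.Agent.H68.AC.Final

/-!
# The canonical tree is rarely deep
-/

set_option autoImplicit false

namespace Pool.Agent.H70.OQ.SWT

open Finset Pool.Agent.H6.NB Pool.Agent.H70.OQ
open Pool.Agent.H68.AC (PA BPF can gW IsPath nfree mem_BPF canp_t bpn_t)

theorem swt (h1 : T_SWX) : T_SWT := by
  intro A Z _ _ _ _ cs w q L hw hcs hq hwq hL
  have hwr : (1 : ℝ) ≤ w := by exact_mod_cast hw
  have hq1 : q ≤ 1 := by nlinarith
  have hW : ∀ (h : A → Z) (l : A → Bool), 0 ≤ uw L h * lw q l := by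
    intro h l
    refine mul_nonneg (Finset.prod_nonneg fun a _ => ?_) (Finset.prod_nonneg fun a _ => ?_)
    · split_ifs <;> positivity
    · split_ifs
      · exact hq.le
      · linarith
  have hpt : ∀ (h : A → Z) (l : A → Bool),
      ic (w < (can cs (Fintype.card (A × Z) + 1) (kap h l)).depth) ≤
      1 / 2 ^ (w + 1) * ∑ π ∈ BPF cs (Fintype.card (A × Z) + 1) (kap h l), gW 2 ∅ π.flatten := by
    intro h l
    have hnn : ∀ π ∈ BPF cs (Fintype.card (A × Z) + 1) (kap h l), 0 ≤ gW 2 ∅ π.flatten :=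
      fun π _ => Pool.Agent.H70.AC.gW_nonneg (by norm_num) _ _
    by_cases hd : w < (can cs (Fintype.card (A × Z) + 1) (kap h l)).depth
    · have e1 : ic (w < (can cs (Fintype.card (A × Z) + 1) (kap h l)).depth) = 1 := by
        unfold ic
        rw [if_pos hd]
      rw [e1]
      obtain ⟨ψ, c, hψ, hlen⟩ := Pool.Agent.H70.AC.exists_path_depth
        (can cs (Fintype.card (A × Z) + 1) (kap h l))
      obtain ⟨π, hπ, hbp, -⟩ := canp_t (A × Z) cs (Fintype.card (A × Z) + 1) (kap h l) ψ c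
        (Pool.Agent.H70.AC.nfree_le _) hψ
      obtain ⟨hn, -, hl⟩ := bpn_t (A × Z) cs (kap h l) π hbp
      have hmem : π ∈ BPF cs (Fintype.card (A × Z) + 1) (kap h l) := mem_BPF.2 ⟨hbp, by omega⟩
      have h2 := Pool.Agent.H70.AC.gW_ge ∅ π.flatten w hn (by rw [hπ, hlen]; exact hd)
      rw [Finset.card_empty, pow_zero] at h2
      refine h2.trans (mul_le_mul_of_nonneg_left ?_ (by positivity))
      exact Finset.single_le_sum hnn hmem
    · have e1 : ic (w < (can cs (Fintype.card (A × Z) + 1) (kap h l)).depth) = 0 := by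
        unfold ic
        rw [if_neg hd]
      rw [e1]
      exact mul_nonneg (by positivity) (Finset.sum_nonneg hnn)
  have hX := h1 A Z cs w (Fintype.card (A × Z) + 1) q L hw hcs hq hwq hL
  calc _ ≤ ∑ h : A → Z, ∑ l : A → Bool, uw L h * lw q l *
        (1 / 2 ^ (w + 1) * ∑ π ∈ BPF cs (Fintype.card (A × Z) + 1) (kap h l), gW 2 ∅ π.flatten) :=
        Finset.sum_le_sum fun h _ => Finset.sum_le_sum fun l _ =>
          mul_le_mul_of_nonneg_left (hpt h l) (hW h l)
    _ = 1 / 2 ^ (w + 1) * ∑ h : A → Z, ∑ l : A → Bool, uw L h * lw q l *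
        ∑ π ∈ BPF cs (Fintype.card (A × Z) + 1) (kap h l), gW 2 ∅ π.flatten := by
        rw [Finset.mul_sum]
        refine Finset.sum_congr rfl fun h _ => ?_
        rw [Finset.mul_sum]
        refine Finset.sum_congr rfl fun l _ => ?_
        ring
    _ ≤ 1 / 2 ^ (w + 1) * 5 := mul_le_mul_of_nonneg_left hX (by positivity)
    _ = _ := by ring

end Pool.Agent.H70.OQ.SWT
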