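import Pool.Agent.H70.OQ.Targets
import Pool.Agent.H6.NB.All

/-!
# The switching lemma for a family of formulas
-/

set_option autoImplicit false

namespace Pool.Agent.H70.OQ.SWU

open Finset Pool.Agent.H6.NB Pool.Agent.H70.OQ
open Pool.Agent.H68.AC (PA Ckt fd Wt rho Ext ind mrg mask)

theorem swu : T_SWU := by
  classical
  intro V ι _ _ _ D S w q f hf hw hq0 hq2 hqw
  have hwr : (1 : ℝ) ≤ w := by exact_mod_cast hw
  have hq1 : q ≤ 1 := by linarith
  have hc := fun i => pf_CKT V S D (f i) (hf i)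
  choose s C hs hC using hc
  have hA : ∀ i, ∑ R : Fin (D + 1) → PA V, Wt q (1 / 2) R * ind (∃ g, w < ((C i).T ∅ R g).depth) ≤
      ((S : ℝ) + 1) ^ (D + 1) / 2 ^ w := by
    intro i
    have h := Pool.Agent.H68.AC.A V (s i) (D + 1) (C i) w ∅ (1 / 2) q hw (by norm_num) (le_refl _)
      hq0 hq2 (by nlinarith)
    rw [Finset.card_empty, pow_zero, mul_one] at h
    refine h.trans ?_
    have e2 : ((s i : ℕ) : ℝ) ≤ ((S : ℝ) + 1) ^ (D + 1) := by exact_mod_cast hs i
    have e3 : (3 / 2 / 2 ^ (w + 1) : ℝ) ≤ 1 / 2 ^ w := by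
      rw [pow_succ, div_div, div_le_div_iff₀ (by positivity) (by positivity)]
      have : (0 : ℝ) < 2 ^ w := by positivity
      linarith
    calc ((s i : ℕ) : ℝ) * (3 / 2 / 2 ^ (w + 1)) ≤ ((S : ℝ) + 1) ^ (D + 1) * (1 / 2 ^ w) :=
          mul_le_mul e2 e3 (by positivity) (by positivity)
      _ = _ := by ring
  have hpt : ∀ R : Fin (D + 1) → PA V,
      ic (¬ ∀ i, ∃ T : Pool.Agent.H68.AC.DT V, T.depth ≤ w ∧
        ∀ y, Ext (fd R (D + 1)) y → T.eval y = f i y) ≤
      ∑ i, ind (∃ g, w < ((C i).T ∅ R g).depth) := by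
    intro R
    have hnn : ∀ i ∈ (univ : Finset ι), 0 ≤ ind (∃ g, w < ((C i).T ∅ R g).depth) := by
      intro i _
      unfold ind
      split_ifs <;> norm_num
    by_cases hall : ∀ i, ∃ T : Pool.Agent.H68.AC.DT V, T.depth ≤ w ∧
        ∀ y, Ext (fd R (D + 1)) y → T.eval y = f i y
    · have : ic (¬ ∀ i, ∃ T : Pool.Agent.H68.AC.DT V, T.depth ≤ w ∧
        ∀ y, Ext (fd R (D + 1)) y → T.eval y = f i y) = 0 := by
        unfold ic
        rw [if_neg (not_not.2 hall)]
      rw [this]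
      exact Finset.sum_nonneg hnn
    · have h1 : ic (¬ ∀ i, ∃ T : Pool.Agent.H68.AC.DT V, T.depth ≤ w ∧
        ∀ y, Ext (fd R (D + 1)) y → T.eval y = f i y) = 1 := by
        unfold ic
        rw [if_pos hall]
      rw [h1]
      push Not at hall
      obtain ⟨i, hi⟩ := hall
      have hdeep : ∃ g, w < ((C i).T ∅ R g).depth := by
        by_contra hno
        push Not at hno
        obtain ⟨y, hy, hne⟩ := hi ((C i).T ∅ R (C i).out) (hno _)
        apply hne
        rw [← hC]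
        apply Pool.Agent.H68.AC.cor_t V (s i) (D + 1) (C i) ∅ R (C i).out
        intro v b hv
        have h6 : fd R ((C i).lev (C i).out + 1) v = some b := by
          simpa [rho, mask] using hv
        exact hy v b (Pool.Agent.H3.NB.L12.fd_mono R ((C i).lev (C i).out + 1) (D + 1)
          ((C i).lev_lt (C i).out) v b h6)
      have h2 : ind (∃ g, w < ((C i).T ∅ R g).depth) = 1 := by
        unfold ind
        rw [if_pos hdeep]
      rw [← h2]
      exact Finset.single_le_sum hnn (mem_univ i)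
  calc ∑ R : Fin (D + 1) → PA V, Wt q (1 / 2) R *
        ic (¬ ∀ i, ∃ T : Pool.Agent.H68.AC.DT V, T.depth ≤ w ∧
          ∀ y, Ext (fd R (D + 1)) y → T.eval y = f i y)
      ≤ ∑ R : Fin (D + 1) → PA V, Wt q (1 / 2) R * ∑ i, ind (∃ g, w < ((C i).T ∅ R g).depth) :=
        Finset.sum_le_sum fun R _ => mul_le_mul_of_nonneg_left (hpt R)
          (Pool.Agent.H90.AC.Wt_nonneg hq0.le hq1 (by norm_num) (by norm_num) R)
    _ = ∑ i, ∑ R : Fin (D + 1) → PA V, Wt q (1 / 2) R * ind (∃ g, w < ((C i).T ∅ R g).depth) := by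
        rw [Finset.sum_comm]
        exact Finset.sum_congr rfl fun R _ => Finset.mul_sum _ _ _
    _ ≤ ∑ _i : ι, ((S : ℝ) + 1) ^ (D + 1) / 2 ^ w := Finset.sum_le_sum fun i _ => hA i
    _ = _ := by
        rw [Finset.sum_const, Finset.card_univ, nsmul_eq_mul]
        ring

end Pool.Agent.H70.OQ.SWU
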