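import Pool.Agent.H70.OQ.Basic

/-!
# For every k an oracle with Σ_k in BQP and Σ_(k+1) not in BQP: module targets
-/

set_option autoImplicit false

namespace Pool.Agent.H70.OQ

open Finset Filter Pool.Agent.H6.NB

/-! ## Part A: formulas -/

/-- FMM: monotonicity. -/
def T_FMM : Prop := ∀ (V : Type) (S S' t t' d : ℕ) (f : (V → Bool) → Bool), S ≤ S' → t ≤ t' →
  Fm S t d f → Fm S' t' d f

/-- FMS: substitution of decision trees. -/
def T_FMS : Prop := ∀ (V V' : Type) (S t u d : ℕ) (f : (V → Bool) → Bool)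
  (φ : V → (V' → Bool) → Bool), (∀ v, Fm S u 0 (φ v)) → Fm S t d f →
  Fm S (t * u) d fun y => f fun v => φ v y

/-- CLG: a formula applied to functions of the class `Cl`. -/
def T_CLG : Prop := ∀ (V V' : Type) (S t d S' d' : ℕ) (f : (V → Bool) → Bool)
  (φ : V → (V' → Bool) → Bool), S ≤ S' → 2 ^ t ≤ S' → (∀ v, Cl V' S' d' (φ v)) → Fm S t d f →
  Cl V' S' (d' + d + 2) fun y => f fun v => φ v y

/-! ## Part B: decision trees on the cube -/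

/-- DTP: the variables on a path. -/
def T_DTP : Prop := ∀ (V : Type) [DecidableEq V] (T : Pool.Agent.H68.AC.DT V) (y : V → Bool),
  ∃ Q : Finset V, Q.card ≤ T.depth ∧ ∀ y', (∀ v ∈ Q, y' v = y v) → T.eval y' = T.eval y

/-- SWU: the switching lemma for a family of formulas. -/
def T_SWU : Prop := ∀ (V ι : Type) [Fintype V] [DecidableEq V] [Fintype ι] (D S w : ℕ) (q : ℝ)
  (f : ι → (V → Bool) → Bool), (∀ i, Cl V S (D + 1) (f i)) → 1 ≤ w → 0 < q → q ≤ 1 / 2 →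
  128 * w * q ≤ 1 →
  ∑ R : Fin (D + 1) → Pool.Agent.H68.AC.PA V, Pool.Agent.H68.AC.Wt q (1 / 2) R *
      ic (¬ ∀ i, ∃ T : Pool.Agent.H68.AC.DT V, T.depth ≤ w ∧
        ∀ y, Pool.Agent.H68.AC.Ext (Pool.Agent.H68.AC.fd R (D + 1)) y → T.eval y = f i y) ≤
    Fintype.card ι * ((S : ℝ) + 1) ^ (D + 1) / 2 ^ w

/-- CH2: binomial coefficients. -/
def T_CH2 : Prop := ∀ k r : ℕ, 1 ≤ k → 4 ^ r * k.choose r ≤ (4 * k + r).choose r ∧
  1 ≤ (4 * k + r).choose r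

/-- CMB: many sensitive free variables are rare. -/
def T_CMB : Prop := ∀ (X : Type) [Fintype X] [DecidableEq X] (w k r : ℕ)
  (κ : Pool.Agent.H68.AC.PA X) (g : (X → Bool) → Bool) (hx : X → (X → Bool) → Bool), 1 ≤ k →
  (∃ T : Pool.Agent.H68.AC.DT X, T.depth ≤ w ∧
    ∀ y, Pool.Agent.H68.AC.Ext κ y → T.eval y = g y) →
  (∀ x, ∃ T : Pool.Agent.H68.AC.DT X, T.depth ≤ w ∧
    ∀ y, Pool.Agent.H68.AC.Ext κ y → T.eval y = hx x y) →
  (univ.filter fun z : X → Bool => w + (2 * w + 1) * (4 * k + r) < (univ.filter fun x =>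
    κ x = none ∧ hx x (flp (cpl κ z) x) ≠ g (cpl κ z)).card).card * 4 ^ r ≤
  2 ^ Fintype.card X + 4 ^ r * Fintype.card X ^ r *
    (univ.filter fun z : X → Bool => k < (univ.filter fun x =>
      hx x (cpl κ z) ≠ g (cpl κ z)).card).card

/-- LWS: the total weight of the sets of live elements. -/
def T_LWS : Prop := ∀ (A : Type) [Fintype A] [DecidableEq A] (q : ℝ), ∑ l : A → Bool, lw q l = 1

/-- PSH: the completed restriction and the set of its free variables are independent. -/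
def T_PSH : Prop := ∀ (X : Type) [Fintype X] [DecidableEq X] (d : ℕ) (q : ℝ)
  (F : (X → Bool) → (X → Bool) → ℝ),
  ∑ R : Fin d → Pool.Agent.H68.AC.PA X, ∑ z : X → Bool, Pool.Agent.H68.AC.Wt q (1 / 2) R *
      F (cpl (Pool.Agent.H68.AC.fd R d) z) (fun x => decide (Pool.Agent.H68.AC.fd R d x = none)) =
    ∑ y : X → Bool, ∑ l : X → Bool, lw (q ^ d) l * F y l

/-- CL0: a random set contains many elements of a large set. -/
def T_CL0 : Prop := ∀ (X : Type) [Fintype X] [DecidableEq X] (p : ℝ) (S : Finset X) (m : ℕ),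
  0 ≤ p → p ≤ 1 → (2 * m : ℝ) ≤ S.card * p → 0 < S.card →
  p / 2 ≤ ∑ l : X → Bool, lw p l * ic (m < (S.filter fun x => l x = true).card)

/-- CUB: a family of formulas on the cube. -/
def T_CUB : Prop := ∀ (X : Type) [Fintype X] [DecidableEq X] (D S w r k k' : ℕ)
  (g : (X → Bool) → Bool) (hx : X → (X → Bool) → Bool), Cl X S (D + 1) g →
  (∀ x, Cl X S (D + 1) (hx x)) → 1 ≤ w → 1 ≤ k →
  (2 * (w + (2 * w + 1) * (4 * k + r)) : ℝ) ≤ k' * qw w ^ (D + 1) →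
  ((univ.filter fun z : X → Bool => k' < (univ.filter fun x =>
      hx x (flp z x) ≠ g z).card).card : ℝ) ≤
    2 / qw w ^ (D + 1) * (2 ^ Fintype.card X * (((Fintype.card X : ℝ) + 1) *
      ((S : ℝ) + 1) ^ (D + 1) * 2 / 2 ^ w + 1 / 4 ^ r) + (Fintype.card X : ℝ) ^ r *
        (univ.filter fun z : X → Bool => k < (univ.filter fun x => hx x z ≠ g z).card).card)

/-! ## Part C: random restrictions of tables -/

/-- SWX: the switching lemma for the restrictions `kap`, counting block paths. -/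
def T_SWX : Prop := ∀ (A Z : Type) [Fintype A] [DecidableEq A] [Fintype Z] [DecidableEq Z]
  (cs : List (Bool × Pool.Agent.H68.AC.DT (A × Z))) (w n : ℕ) (q : ℝ) (L : A → Finset Z), 1 ≤ w →
  (∀ c ∈ cs, c.2.depth ≤ w) → 0 < q → 64 * w * q ≤ 1 → (∀ a, Fintype.card A ≤ (L a).card) →
  ∑ h : A → Z, ∑ l : A → Bool, uw L h * lw q l *
    ∑ π ∈ Pool.Agent.H68.AC.BPF cs n (kap h l), Pool.Agent.H68.AC.gW 2 ∅ π.flatten ≤ 5

/-- SWT: the canonical tree is rarely deep. -/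
def T_SWT : Prop := ∀ (A Z : Type) [Fintype A] [DecidableEq A] [Fintype Z] [DecidableEq Z]
  (cs : List (Bool × Pool.Agent.H68.AC.DT (A × Z))) (w : ℕ) (q : ℝ) (L : A → Finset Z), 1 ≤ w →
  (∀ c ∈ cs, c.2.depth ≤ w) → 0 < q → 64 * w * q ≤ 1 → (∀ a, Fintype.card A ≤ (L a).card) →
  ∑ h : A → Z, ∑ l : A → Bool, uw L h * lw q l *
    ic (w < (Pool.Agent.H68.AC.can cs (Fintype.card (A × Z) + 1) (kap h l)).depth) ≤ 5 / 2 ^ (w + 1)

/-- RED: a formula loses one level. -/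
def T_RED : Prop := ∀ (A Z : Type) [Fintype A] [DecidableEq A] [Fintype Z] [DecidableEq Z]
  (S w d : ℕ) (q : ℝ) (L : A → Finset Z) (f : (A × Z → Bool) → Bool), 1 ≤ w → 0 < q →
  64 * w * q ≤ 1 → (∀ a, Fintype.card A ≤ (L a).card) → Fm S w (d + 1) f →
  ∑ h : A → Z, ∑ l : A → Bool, uw L h * lw q l * ic (¬ Red S w d f h l) ≤
    ((S : ℝ) + 1) ^ d * (5 / 2 ^ (w + 1))

/-- SYM: choosing first the live children and then a hidden child among them. -/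
def T_SYM : Prop := ∀ (A Z : Type) [Fintype A] [DecidableEq A] [Fintype Z] [DecidableEq Z]
  [Nonempty Z] (q : ℝ) (F : (A → Z) → ℝ),
  ∑ l : A × Z → Bool, lw q l * ∑ h : A → Z, uw (Lof l) h * F h =
    (∑ h, F h) / (Fintype.card Z : ℝ) ^ Fintype.card A

/-- LIV: there are many live children. -/
def T_LIV : Prop := ∀ (A Z : Type) [Fintype A] [DecidableEq A] [Fintype Z] [DecidableEq Z] (q : ℝ)
  (M G : ℕ), 0 ≤ q → q ≤ 1 → G * M ≤ Fintype.card Z →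
  ∑ l : A × Z → Bool, lw q l * ic (∃ a, (univ.filter fun z => l (a, z) = true).card < M) ≤
    Fintype.card A * M * (1 - q) ^ G

/-- UWS: the total weight of the hidden children. -/
def T_UWS : Prop := ∀ (A Z : Type) [Fintype A] [DecidableEq A] [Fintype Z] [DecidableEq Z]
  (L : A → Finset Z), (∀ h, 0 ≤ uw L h) ∧ ((∀ a, (L a).Nonempty) → ∑ h : A → Z, uw L h = 1)

/-- TB1: the table lemma for formulas of depth one. -/
def T_TB1 : Prop := ∀ (X Z : Type) [Fintype X] [DecidableEq X] [Fintype Z] [DecidableEq Z]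
  (S w K : ℕ) (q : ℝ) (L : X → Finset Z) (f : (X × Z → Bool) → Bool), 1 ≤ w → 0 < q →
  64 * w * q ≤ 1 → (2 * w : ℝ) ≤ K * q → (∀ x, Fintype.card X ≤ (L x).card) → Fm S w 1 f →
  ∑ h : X → Z, uw L h * ic (K < (univ.filter fun x =>
    f (glu h fun x' => !decide (x' = x)) ≠ f (glu h fun _ => true)).card) ≤
    2 / q * (5 / 2 ^ (w + 1))

/-- TBI: the table lemma, induction over the depth. -/
def T_TBI : Prop := ∀ (X : Type) (Y : ℕ → Type) [Fintype X] [DecidableEq X] [∀ i, Fintype (Y i)]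
  [∀ i, DecidableEq (Y i)] [∀ i, Nonempty (Y i)] (S w G K : ℕ) (q : ℝ), 1 ≤ w → 0 < q →
  64 * w * q ≤ 1 → (2 * w : ℝ) ≤ K * q → ∀ k : ℕ,
  (∀ i < k, G * Fintype.card (Node X Y i) ≤ Fintype.card (Y i)) →
  ∀ (L : Node X Y k → Finset (Y k)) (f : (Node X Y (k + 1) → Bool) → Bool), Fm S w (k + 1) f →
  (∀ a, Fintype.card (Node X Y k) ≤ (L a).card) →
  ∑ H : Hid X Y k, ∑ h : Node X Y k → Y k, uw L h *
      ic (K < (senT (k + 1) f ((H, h) : Hid X Y (k + 1))).card) ≤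
    errT X Y S w G q k * Fintype.card (Hid X Y k)

/-- TBL: the table lemma. -/
def T_TBL : Prop := ∀ (X : Type) (Y : ℕ → Type) [Fintype X] [DecidableEq X] [∀ i, Fintype (Y i)]
  [∀ i, DecidableEq (Y i)] [∀ i, Nonempty (Y i)] (k S t w G K : ℕ) (q : ℝ), 1 ≤ w → t ≤ w → 0 < q →
  64 * w * q ≤ 1 → (2 * w : ℝ) ≤ K * q → 1 ≤ G →
  (∀ i ≤ k, G * Fintype.card (Node X Y i) ≤ Fintype.card (Y i)) →
  ∀ f : (Node X Y (k + 1) → Bool) → Bool, Fm S t (k + 1) f →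
  ((univ.filter fun H : Hid X Y (k + 1) => K < (senT (k + 1) f H).card).card : ℝ) ≤
    errT X Y S w G q k * Fintype.card (Hid X Y (k + 1))

/-! ## Part D: the ideal world -/

/-- EXG: basic facts on the encrypted answers. -/
def T_EXG : Prop := ∀ (B Ω : Type) (acc : Ω → Gn B Ω) (lev : Ω → ℕ) (h : ℕ), Lvg acc lev h →
  (∀ T θ s, elG acc T θ h s = xor (acc s T (elG acc T θ h)) (θ s)) ∧
  (∀ T θ e, (∀ s, e s = xor (acc s T e) (θ s)) → e = elG acc T θ h) ∧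
  (∀ T U e s, dlG acc h T U e s = xor (acc s T e) (acc s U (exG acc h T U e))) ∧
  (∀ T U e e' s, (∀ s', lev s' < lev s → e s' = e' s') →
    dlG acc h T U e s = dlG acc h T U e' s)

/-- CHG: change of variables between keys and encrypted answers. -/
def T_CHG : Prop := ∀ (B Ω : Type) [Fintype Ω] [DecidableEq Ω] (acc : Ω → Gn B Ω) (lev : Ω → ℕ)
  (h : ℕ) (T : B → Bool) (f : (Ω → Bool) → (Ω → Bool) → ℝ), Lvg acc lev h →
  ∑ κ, f κ (elG acc T κ h) = ∑ e, f (thG acc T e) e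

/-- FLG: flips of the answers of level `j`. -/
def T_FLG : Prop := ∀ (X B Ω : Type) [Fintype X] [DecidableEq X] (acc : Ω → Gn B Ω) (lev : Ω → ℕ)
  (h j : ℕ) (K : ℕ → ℕ) (G : Gn B Ω) (T : B → Bool) (U : X → B → Bool) (e : Ω → Bool),
  Lvg acc lev h → LocG lev (j + 1) G →
  (∀ z x s, lev s ≤ j → dlG acc h T (U x) (flG acc lev h T U j e z) s = dlG acc h T (U x) e s) ∧
  (∀ z, flG acc lev h T U j (flG acc lev h T U j e z) z = e) ∧
  (∀ z, TyG acc lev h K (j + 1) T U (flG acc lev h T U j e z) ↔ TyG acc lev h K (j + 1) T U e) ∧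
  (∀ z, dfx acc h G T U (flG acc lev h T U j e z) = univ.filter fun x =>
    hz acc lev h G T U j e x (flp z x) ≠ gz acc lev h G T U j e z) ∧
  (∀ z, dfh acc lev h G j T U (flG acc lev h T U j e z) = univ.filter fun x =>
    hz acc lev h G T U j e x z ≠ gz acc lev h G T U j e z)

/-- SUB: the value as a function of the flips is a formula. -/
def T_SUB : Prop := ∀ (X B Ω : Type) [Fintype X] [DecidableEq X] (acc : Ω → Gn B Ω) (lev : Ω → ℕ)
  (h j M S t d : ℕ) (G : Gn B Ω) (T : B → Bool) (U : X → B → Bool) (e : Ω → Bool),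
  Fm S t d (fun y : B ⊕ Ω → Bool => G (fun b => y (.inl b)) fun s => y (.inr s)) → 1 ≤ M →
  (∀ s, lev s = j → (dsG acc h T U e s).card ≤ M) →
  Fm S (t * M) d (gz acc lev h G T U j e) ∧ ∀ x, Fm S (t * M) d (hz acc lev h G T U j e x)

open Classical in
/-- LST: the step from level `j` to level `j + 1`. -/
def T_LST : Prop := ∀ (W X B Ω : Type) [Fintype W] [Fintype X] [DecidableEq X] [Fintype Ω]
  [DecidableEq Ω] (T : W → B → Bool) (U : W → X → B → Bool) (acc : Ω → Gn B Ω) (lev : Ω → ℕ)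
  (h S t d j w r k' : ℕ) (K : ℕ → ℕ) (δ : ℝ) (G : Gn B Ω), Lvg acc lev h →
  Fj lev S t d (j + 1) G → 1 ≤ t → 1 ≤ K j → 1 ≤ w →
  (2 * (w + (2 * w + 1) * (4 * K j + r)) : ℝ) ≤ k' * qw w ^ (d + 2) →
  ((univ.filter fun p : W × (Ω → Bool) => TyG acc lev h K (j + 1) (T p.1) (U p.1) p.2 ∧
      K j < (dfh acc lev h G j (T p.1) (U p.1) p.2).card).card : ℝ) ≤
    δ * (Fintype.card W * 2 ^ Fintype.card Ω) →
  ((univ.filter fun p : W × (Ω → Bool) => TyG acc lev h K (j + 1) (T p.1) (U p.1) p.2 ∧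
      k' < (dfx acc h G (T p.1) (U p.1) p.2).card).card : ℝ) ≤
    2 / qw w ^ (d + 2) * (((Fintype.card X : ℝ) + 1) * ((S : ℝ) + 2 ^ (t * K j) + 1) ^ (d + 2) *
      2 / 2 ^ w + 1 / 4 ^ r + (Fintype.card X : ℝ) ^ r * δ) * (Fintype.card W * 2 ^ Fintype.card Ω)

open Classical in
/-- STH: the bound for `dfh` follows from the bound of the previous level. -/
def T_STH : Prop := ∀ (W X B Ω : Type) [Fintype W] [Fintype X] [DecidableEq X] [Fintype Ω]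
  [DecidableEq Ω] (T : W → B → Bool) (U : W → X → B → Bool) (acc : Ω → Gn B Ω) (lev : Ω → ℕ)
  (h S t d j k : ℕ) (K : ℕ → ℕ) (δ : ℝ), Lvg acc lev h → j < h →
  (∀ G : Gn B Ω, Fj lev S t d j G → ((univ.filter fun p : W × (Ω → Bool) =>
      TyG acc lev h K j (T p.1) (U p.1) p.2 ∧ k < (dfx acc h G (T p.1) (U p.1) p.2).card).card : ℝ) ≤
    δ * (Fintype.card W * 2 ^ Fintype.card Ω)) →
  ∀ G : Gn B Ω, Fj lev S t d (j + 1) G → ((univ.filter fun p : W × (Ω → Bool) =>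
      TyG acc lev h K (j + 1) (T p.1) (U p.1) p.2 ∧
        k < (dfh acc lev h G j (T p.1) (U p.1) p.2).card).card : ℝ) ≤
    δ * (Fintype.card W * 2 ^ Fintype.card Ω)

open Classical in
/-- BS0: level zero. -/
def T_BS0 : Prop := ∀ (W X B Ω : Type) [Fintype W] [Fintype X] [DecidableEq X] [Fintype Ω]
  [DecidableEq Ω] (T : W → B → Bool) (U : W → X → B → Bool) (acc : Ω → Gn B Ω) (lev : Ω → ℕ)
  (h S t d k : ℕ) (K : ℕ → ℕ) (δ : ℝ), Lvg acc lev h →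
  (∀ f : (B → Bool) → Bool, Fm S t d f → ((univ.filter fun p : W =>
    k < (univ.filter fun x => f (U p x) ≠ f (T p)).card).card : ℝ) ≤ δ * Fintype.card W) →
  ∀ G : Gn B Ω, Fj lev S t d 0 G → ((univ.filter fun p : W × (Ω → Bool) =>
      TyG acc lev h K 0 (T p.1) (U p.1) p.2 ∧ k < (dfx acc h G (T p.1) (U p.1) p.2).card).card : ℝ) ≤
    δ * (Fintype.card W * 2 ^ Fintype.card Ω)

open Classical in
/-- IDG: the ideal world is typical. -/
def T_IDG : Prop := ∀ (W X B Ω : Type) [Fintype W] [Fintype X] [DecidableEq X] [Fintype Ω]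
  [DecidableEq Ω] (T : W → B → Bool) (U : W → X → B → Bool) (acc : Ω → Gn B Ω) (lev : Ω → ℕ)
  (h S t d : ℕ) (w r k : ℕ → ℕ) (δ : ℕ → ℝ) (δm : ℝ), Lvg acc lev h →
  (∀ s, Fj lev S t d (lev s) (acc s)) → Prm (Fintype.card X) S t d h w r k δ →
  (∀ f : (B → Bool) → Bool, Fm S t d f → ((univ.filter fun p : W =>
    k 0 < (univ.filter fun x => f (U p x) ≠ f (T p)).card).card : ℝ) ≤ δ 0 * Fintype.card W) →
  (∀ j < h, δ j ≤ δm) →
  ((univ.filter fun p : W × (Ω → Bool) => ¬ TyG acc lev h k h (T p.1) (U p.1) p.2).card : ℝ) ≤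
    Fintype.card Ω * (δm * (Fintype.card W * 2 ^ Fintype.card Ω))

/-! ## Part E: from the ideal to the real world -/

/-- MEG: the instances satisfy the hypotheses of the ideal world. -/
def T_MEG : Prop := ∀ (B Ω : Type) (nn qb : Ω → ℕ) (D : Ω → (PosG B Ω nn qb → Bool) → Bool)
  (lev : Ω → ℕ) (S t d h : ℕ), Syg D lev S t d h → ∀ P : Blk nn qb, Lvg (accG D P) lev h ∧
    ∀ s, Fj lev S t d (lev s) (accG D P s)

open Classical in
/-- CBG: the property of not being typical is in the class, as a function of one copy. -/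
def T_CBG : Prop := ∀ (X B Ω : Type) [Fintype X] [DecidableEq X] [Fintype Ω]
  [DecidableEq Ω] (nn qb : Ω → ℕ) (D : Ω → (PosG B Ω nn qb → Bool) → Bool) (lev : Ω → ℕ)
  (S t d h S' M : ℕ) (K : ℕ → ℕ), Syg D lev S t d h → 2 ≤ S' → S ≤ S' → 2 ^ t ≤ S' →
  (∀ j, j < h → K j ≤ M) → M + 1 ≤ S' → Fintype.card Ω * Fintype.card X ^ (M + 1) ≤ S' →
  1 ≤ Fintype.card X →
  ∀ (T : B → Bool) (U : X → B → Bool) (e : Ω → Bool) (P : Blk nn qb) (s : Ω) (i : Fin (nn s)),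
    Cl (VV (qb s)) S' ((d + 5) * h + 2) fun p =>
      decide (¬ TyG (accG D (updC P s i p)) lev h K h T U e)

open Classical in
/-- EXJ: there is a good configuration. -/
def T_EXJ : Prop := ∀ (W X B Ω : Type) [Fintype W] [Nonempty W] [Fintype X] [DecidableEq X]
  [Fintype Ω] [DecidableEq Ω] (nn qb : Ω → ℕ) (T : W → B → Bool) (U : W → X → B → Bool)
  (D : Ω → (PosG B Ω nn qb → Bool) → Bool) (lev : Ω → ℕ) (S t d h S' M : ℕ) (w r k : ℕ → ℕ)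
  (δ : ℕ → ℝ) (δm Λ : ℝ), Syg D lev S t d h → Prm (Fintype.card X) S t d h w r k δ →
  (∀ f : (B → Bool) → Bool, Fm S t d f → ((univ.filter fun p : W =>
    k 0 < (univ.filter fun x => f (U p x) ≠ f (T p)).card).card : ℝ) ≤ δ 0 * Fintype.card W) →
  (∀ j < h, δ j ≤ δm) → 1 ≤ Fintype.card X → 2 ≤ S' → S ≤ S' → 2 ^ t ≤ S' →
  (∀ j, j < h → k j ≤ M) → M + 1 ≤ S' → Fintype.card Ω * Fintype.card X ^ (M + 1) ≤ S' →
  (∀ s, 10 ≤ qb s) →
  (∀ s f, Cl (VV (qb s)) S' ((d + 5) * h + 2) f → L12 (fun y => bi (f y)) ≤ Λ) →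
  Fintype.card Ω * δm ≤ 1 / 4 →
  ∑ s, (nn s : ℝ) * ((Λ + 1) / √(2 ^ qb s)) ≤ 1 / 4 →
  ∑ s, (3 * (nn s : ℝ) ^ 2 / 2 ^ qb s + (1 - eps2 (qb s) / 4) ^ nn s) ≤ 1 / 4 →
  ∃ (p : W) (κ : Ω → Bool) (P : Blk nn qb),
    TyG (accG D P) lev h k h (T p) (U p) (elG (accG D P) (T p) κ h) ∧
    ∀ s, DecA (qb s) (nn s) (κ s) (P s)

/-! ## Part F: oracles and strings -/

/-- BLG: the oracle built from a seed. -/
def T_BLG : Prop := ∀ A, LocA A → ∀ σ, ∃ O, Bldg A σ O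

/-- BUG: short strings of the oracle depend only on short strings of the seed. -/
def T_BUG : Prop := ∀ (A : List Bool → (List Bool → Bool) → Prop) (σ σ' O O' : List Bool → Bool)
  (l : ℕ), LocA A → Bldg A σ O → Bldg A σ' O' → (∀ w, w.length ≤ l → σ w = σ' w) →
  ∀ w, w.length ≤ l → O w = O' w

/-- YEG: the quantum algorithm works if the keys can be read. -/
def T_YEG : Prop := ∀ (A : List Bool → (List Bool → Bool) → Prop) (σ O : List Bool → Bool)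
  (s : List Bool), Bldg A σ O → Dec σ s →
  (A s O → 2 / 3 ≤ yesProb O s) ∧ (¬ A s O → yesProb O s ≤ 1 / 3)

/-- LAK: the universal machine is local. -/
def T_LAK : Prop := ∀ (k : ℕ) (prog : List Bool → List (List Bool) → DT), Smallk k prog →
  LocA (acck k prog)

/-- NST: the strings of the nodes. -/
def T_NST : Prop := ∀ (n i : ℕ),
  (∀ p : Nn n i, (nstr n i p).length = (2 ^ (i + 1) - 1) * n) ∧
  (∀ p p' : Nn n i, nstr n i p = nstr n i p' → p = p') ∧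
  ∀ w : List Bool, w.length = (2 ^ (i + 1) - 1) * n → ∃ p : Nn n i, nstr n i p = w

/-- CLH: the classification of the strings. -/
def T_CLH : Prop := ∀ (k n a : ℕ) (o : List Bool → Bool),
  (∀ p : Nn n k, clg k n a o (false :: nstr n k p) = .bas p) ∧
  (∀ s : Om n a, clg k n a o (key s.1) = .key s) ∧
  (∀ (s : Om n a) (i : Fin (ns s.1)) (v : VV (qs s.1)),
    clg k n a o (blk s.1 i v.1 (List.ofFn v.2)) = .blk s i v) ∧
  (∀ w, (∃ p : Nn n k, w = false :: nstr n k p) ∨ (∃ s : Om n a, w = key s.1) ∨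
    (∃ (s : Om n a) (i : Fin (ns s.1)) (v : VV (qs s.1)), w = blk s.1 i v.1 (List.ofFn v.2)) ∨
    clg k n a o w = .cst (o w))

/-- LKG: the values of the oracle of the stage. -/
def T_LKG : Prop := ∀ (k : ℕ) (A : List Bool → (List Bool → Bool) → Prop) (n a : ℕ)
  (σ₀ O₀ O : List Bool → Bool) (T : Nn n k → Bool) (κ : Om n a → Bool)
  (P : Blk (fun s : Om n a => ns s.1) fun s => qs s.1), LocA A → 2 ≤ n → Bldg A σ₀ O₀ →
  Bldg A (sdg k n a σ₀ T κ P) O → ∀ w, w.length ≤ n ^ a →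
  O w = vlG T (fun s : Om n a => O (key s.1)) P (clg k n a O₀ w)

/-- FMG: the instances as formulas. -/
def T_FMG : Prop := ∀ (k : ℕ) (prog : List Bool → List (List Bool) → DT) (n a t : ℕ)
  (o : List Bool → Bool), Smallk k prog → 2 ≤ n → n ^ 2 ^ a ≤ t ^ 2 →
  ∃ D : Om n (2 ^ a) → (Cg k n (2 ^ a) → Bool) → Bool,
    Syg D (fun s => lv n s.1) (2 ^ t) t k a ∧
    ∀ (s : Om n (2 ^ a)) T e P, (acck k prog s.1 (fun w => vlG T e P (clg k n (2 ^ a) o w)) ↔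
      accG D P s T e = true)

/-- UNG: the universal machine. -/
def T_UNG : Prop := ∀ (k : ℕ) (V : ℕ → Machine k), ∃ prog, Smallk k prog ∧
  ∀ i x O, (x ∈ (V i).lang O ↔ acck k prog (inst (V i).c i x) O)

/-- NDV: the special rows of a table. -/
def T_NDV : Prop := ∀ (k n : ℕ) (O : List Bool → Bool) (b : (Fin n → Bool) → Bool)
  (H : Hid (Fin n → Bool) (Ys n) k), (∀ p : Nn n k, O (false :: nstr n k p) = sv b k H p) →
  ∀ x : Fin n → Bool, (Special k O (List.ofFn x) ↔ b x = false)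

/-- SPC: specialness depends only on the strings of one length. -/
def T_SPC : Prop := ∀ (k : ℕ) (O O' : List Bool → Bool) (u : List Bool),
  (∀ w : List Bool, w.length = (2 ^ (k + 1) - 1) * u.length → O (false :: w) = O' (false :: w)) →
  (Special k O u ↔ Special k O' u)

/-- ING: there is a good seed at the beginning. -/
def T_ING : Prop := ∀ k : ℕ, ∃ σ : List Bool → Bool, (∀ s, Dec σ s) ∧ OneSpecial k σ

/-! ## Parameters -/

/-- PMG: the parameters of the induction over the levels. -/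
def T_PMG : Prop := ∀ (a d b : ℕ), ∃ B : ℕ, ∀ᶠ n : ℕ in atTop, ∀ t R : ℕ, 1 ≤ t → t ≤ n ^ b →
  R ≤ n ^ b → ∃ (k0 w0 ρ0 : ℕ) (w r k : ℕ → ℕ) (δ : ℕ → ℝ), t ≤ w0 ∧ 1 ≤ w0 ∧ w0 ≤ n ^ B ∧
    k 0 = k0 ∧ k0 = 128 * w0 ^ 2 ∧ δ 0 = 1 / 4 ^ ρ0 ∧ ρ0 ≤ n ^ B ∧
    2 * ρ0 + (t + 1) * (d + 2) + 10 * n + 10 * d + 20 ≤ w0 ∧
    Prm (2 ^ n) (2 ^ t) t d a w r k δ ∧ (∀ j < a, δ j ≤ 1 / 4 ^ R) ∧ ∀ j < a, k j ≤ n ^ B

/-- ERR: the error of the table lemma. -/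
def T_ERR : Prop := ∀ (B d : ℕ), ∀ᶠ n : ℕ in atTop, ∀ t w ρ : ℕ, 1 ≤ t → w ≤ n ^ B → ρ ≤ n ^ B →
  2 * ρ + (t + 1) * (d + 2) + 10 * n + 10 * d + 20 ≤ w →
  errT (Fin n → Bool) (Ys n) (2 ^ t) w (2 ^ n) (1 / (64 * w)) d ≤ 1 / 4 ^ ρ

/-- PRG: the parameters of the stage; the machines have `k + 1` quantifiers. -/
def T_PRG : Prop := ∀ (k c C : ℕ) (ε : ℝ), 0 < ε → ∃ a : ℕ, ∀ᶠ n : ℕ in atTop,
  ∃ (t S' M w' w0 : ℕ) (w r κ : ℕ → ℕ) (δ : ℕ → ℝ) (δm : ℝ), 2 ≤ n ∧ n ^ c + c ≤ n ^ 2 ^ a ∧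
  2 ^ (k + 2) * n + 1 ≤ n ^ 2 ^ a ∧ n ^ 2 ^ a ≤ t ^ 2 ∧ 1 ≤ w0 ∧ t ≤ w0 ∧
  (2 * w0 : ℝ) ≤ κ 0 * (1 / (64 * w0)) ∧
  errT (Fin n → Bool) (Ys n) (2 ^ t) w0 (2 ^ n) (1 / (64 * w0)) k ≤ δ 0 ∧
  Prm (2 ^ n) (2 ^ t) t (k + 1) a w r κ δ ∧ (∀ j < a, δ j ≤ δm) ∧ (2 ^ n ^ 2 ^ a) * δm ≤ 1 / 4 ∧
  2 ≤ S' ∧ 2 ^ t ≤ S' ∧ (∀ j < a, κ j ≤ M) ∧ 1 ≤ M ∧ M + 1 ≤ S' ∧
  2 ^ n ^ 2 ^ a * (2 ^ n) ^ (M + 1) ≤ S' ∧ 1 ≤ w' ∧
  (∀ q : ℕ, q ≤ 10 * n ^ 2 ^ a + 100 →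
    (128 * (w' : ℝ)) ^ (2 * ((k + 6) * a + 2)) * ((w' : ℝ) ^ 2 +
      (2 * 2 ^ q) ^ 2 * ((S' : ℝ) + 1) ^ ((k + 6) * a + 2) / 2 ^ w') + 1 ≤ 2 ^ n) ∧
  4 * (C * 2 ^ ((1 / 2 - ε) * n)) * √(M / 2 ^ n) < 1 / 3

/-! ## Assembly -/

/-- SGG: one stage of the construction; the machines have `k + 1` quantifiers. -/
def T_SGG : Prop := ∀ (k c C : ℕ) (ε : ℝ), 0 < ε → ∀ prog, Smallk (k + 1) prog →
  ∀ᶠ n : ℕ in atTop, ∀ Q : QAlg, Q.Short (n ^ c + c) → (Q.T : ℝ) ≤ C * 2 ^ ((1 / 2 - ε) * n) →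
  ∀ σ₀ : List Bool → Bool, (∀ s, Dec σ₀ s) → OneSpecial (k + 1) σ₀ →
  ∃ (σ : List Bool → Bool) (m : ℕ),
    (∀ w, w.length < n → σ w = σ₀ w) ∧ (∀ s, Dec σ s) ∧ OneSpecial (k + 1) σ ∧
    ∀ σ' O, (∀ w, w.length ≤ m → σ' w = σ w) → Bldg (acck (k + 1) prog) σ' O →
      ¬ Correct Q O (hlang (k + 1) O) (List.replicate n false)

/-- FNG: the limit of the stages. -/
def T_FNG : Prop := ∀ (k : ℕ) prog, Smallk (k + 1) prog → ∀ Q : ℕ → List Bool → QAlg,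
  (∀ i, ∃ (c C : ℕ) (ε : ℝ), 0 < ε ∧ ∀ x, (Q i x).Short (x.length ^ c + c) ∧
    ((Q i x).T : ℝ) ≤ C * 2 ^ ((1 / 2 - ε) * x.length)) →
  ∃ σ O, Bldg (acck (k + 1) prog) σ O ∧ (∀ s, Dec σ s) ∧ OneSpecial (k + 1) O ∧ ∀ i m, ∃ n ≥ m,
    ¬ Correct (Q i (List.replicate n false)) O (hlang (k + 1) O) (List.replicate n false)

end Pool.Agent.H70.OQ
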