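import Pool.Agent.H70.OQ.Targets

/-!
# The quantum algorithm works if the keys can be read
-/

set_option autoImplicit false

namespace Pool.Agent.H70.OQ.YEG

open Pool.Agent.H6.NB Pool.Agent.H70.OQ

theorem yeg (h1 : Pool.Agent.H6.NB.T_YES) : T_YEG := by
  classical
  intro A σ O s hB hD
  let prog : List Bool → List Bool → DT := fun s' _ => DT.leaf (decide (A s' O))
  have hacc : ∀ s', acc prog s' O ↔ A s' O := by
    intro s'
    constructor
    · rintro ⟨w, -, hw⟩
      simpa [prog, DT.eval] using hw
    · intro h
      exact ⟨[], by simp, by simpa [prog, DT.eval] using h⟩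
  have hB' : Bld prog σ O := by
    intro w
    rw [hB w]
    congr 1
    rw [decide_eq_decide]
    exact exists_congr fun s' => and_congr_right fun _ => (hacc s').symm
  obtain ⟨p1, p2⟩ := h1 prog σ O s hB' hD
  exact ⟨fun h => p1 ((hacc s).2 h), fun h => p2 fun h' => h ((hacc s).1 h')⟩

end Pool.Agent.H70.OQ.YEG
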