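import Pool.Agent.H6.NB.All
import Pool.Agent.H70.OQ.Targets
import Pool.Agent.H12.OQ.CBG
import Pool.Agent.H12.OQ.LKG
import Pool.Agent.H30.OQ.ERR
import Pool.Agent.H30.OQ.PMG
import Pool.Agent.H42.OQ.NST
import Pool.Agent.H42.OQ.UNG
import Pool.Agent.H48.OQ.CLH
import Pool.Agent.H48.OQ.FMG
import Pool.Agent.H48.OQ.FNG
import Pool.Agent.H54.OQ.Ideal
import Pool.Agent.H56.OQ.CLG
import Pool.Agent.H56.OQ.FLG
import Pool.Agent.H56.OQ.FMM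
import Pool.Agent.H56.OQ.FMS
import Pool.Agent.H56.OQ.MEG
import Pool.Agent.H62.OQ.LWS
import Pool.Agent.H65.OQ.CUB
import Pool.Agent.H65.OQ.SWX
import Pool.Agent.H70.OQ.NDV
import Pool.Agent.H70.OQ.SGG
import Pool.Agent.H70.OQ.SPC
import Pool.Agent.H70.OQ.SWT
import Pool.Agent.H70.OQ.SWU
import Pool.Agent.H70.OQ.YEG
import Pool.Agent.H73.OQ.ING
import Pool.Agent.H73.OQ.LAK
import Pool.Agent.H75.OQ.EXJ
import Pool.Agent.H75.OQ.PRG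
import Pool.Agent.H77.OQ.IDG
import Pool.Agent.H77.OQ.LST
import Pool.Agent.H77.OQ.STH
import Pool.Agent.H79.OQ.TB1
import Pool.Agent.H79.OQ.TBI
import Pool.Agent.H79.OQ.TBL
import Pool.Agent.H85.OQ.CH2
import Pool.Agent.H85.OQ.CMB
import Pool.Agent.H85.OQ.PSH
import Pool.Agent.H93.OQ.RED

/-!
# Assembly of the modules
-/

set_option autoImplicit false

namespace Pool.Agent.H70.OQ

theorem pf_BLG : T_BLG := Pool.Agent.H54.OQ.blg 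

theorem pf_BUG : T_BUG := Pool.Agent.H54.OQ.bug 

theorem pf_CH2 : T_CH2 := Pool.Agent.H85.OQ.ch2 

theorem pf_CLG : T_CLG := Pool.Agent.H56.OQ.CLG.clg_ 

theorem pf_DTP : T_DTP := Pool.Agent.H85.OQ.dtp 

theorem pf_CMB : T_CMB := Pool.Agent.H85.OQ.cmb pf_CH2 pf_DTP Pool.Agent.H6.NB.pf_TUR

theorem pf_ERR : T_ERR := Pool.Agent.H30.OQ.ERR.err 

theorem pf_EXG : T_EXG := Pool.Agent.H54.OQ.exg 

theorem pf_CHG : T_CHG := Pool.Agent.H54.OQ.chg pf_EXG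

theorem pf_FLG : T_FLG := Pool.Agent.H56.OQ.FLG.flg pf_EXG

theorem pf_FMM : T_FMM := Pool.Agent.H56.OQ.FMM.fmm 

theorem pf_FMS : T_FMS := Pool.Agent.H56.OQ.FMS.fms 

theorem pf_BS0 : T_BS0 := Pool.Agent.H54.OQ.bs0 pf_FMS

theorem pf_LAK : T_LAK := Pool.Agent.H73.OQ.LAK.lak 

theorem pf_LIV : T_LIV := Pool.Agent.H62.OQ.liv 

theorem pf_LWS : T_LWS := Pool.Agent.H62.OQ.lws 

theorem pf_CL0 : T_CL0 := Pool.Agent.H62.OQ.cl0 pf_LWS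

theorem pf_MEG : T_MEG := Pool.Agent.H56.OQ.MEG.meg pf_FMS

theorem pf_CBG : T_CBG := Pool.Agent.H12.OQ.CBG.cbg pf_EXG pf_MEG pf_CLG Pool.Agent.H6.NB.pf_CLB

theorem pf_NDV : T_NDV := Pool.Agent.H70.OQ.NDV.ndv 

theorem pf_NST : T_NST := Pool.Agent.H42.OQ.NST.nst 

theorem pf_CLH : T_CLH := Pool.Agent.H48.OQ.CLH.clh pf_NST Pool.Agent.H6.NB.pf_COD

theorem pf_FMG : T_FMG := Pool.Agent.H48.OQ.FMG.fmg pf_CLH Pool.Agent.H6.NB.pf_COD Pool.Agent.H6.NB.pf_LVL Pool.Agent.H6.NB.pf_FIS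

theorem pf_ING : T_ING := Pool.Agent.H73.OQ.ING.ing pf_NDV pf_NST Pool.Agent.H6.NB.pf_INI

theorem pf_LKG : T_LKG := Pool.Agent.H12.OQ.LKG.lkg pf_BUG pf_CLH pf_NST Pool.Agent.H6.NB.pf_COD

theorem pf_PMG : T_PMG := Pool.Agent.H30.OQ.PMG.pmg 

theorem pf_PRG : T_PRG := Pool.Agent.H75.OQ.PRG.prg pf_PMG pf_ERR

theorem pf_PSH : T_PSH := Pool.Agent.H85.OQ.psh 

theorem pf_SPC : T_SPC := Pool.Agent.H70.OQ.SPC.spc 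

theorem pf_STH : T_STH := Pool.Agent.H77.OQ.STH.sth pf_EXG pf_FMS Pool.Agent.H6.NB.pf_SWA

theorem pf_SUB : T_SUB := Pool.Agent.H54.OQ.sub pf_FMS

theorem pf_SWU : T_SWU := Pool.Agent.H70.OQ.SWU.swu 

theorem pf_CUB : T_CUB := Pool.Agent.H65.OQ.CUB.cub pf_SWU pf_CMB pf_PSH pf_CL0 pf_LWS

theorem pf_LST : T_LST := Pool.Agent.H77.OQ.LST.lst pf_CUB pf_FLG pf_SUB pf_CLG

theorem pf_IDG : T_IDG := Pool.Agent.H77.OQ.IDG.idg pf_BS0 pf_STH pf_LST pf_EXG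

theorem pf_EXJ : T_EXJ := Pool.Agent.H75.OQ.EXJ.exj pf_IDG pf_MEG Pool.Agent.H6.NB.pf_HYB Pool.Agent.H6.NB.pf_CPY pf_CHG pf_CBG Pool.Agent.H6.NB.pf_CLR Pool.Agent.H6.NB.pf_DIF Pool.Agent.H6.NB.pf_MUP Pool.Agent.H6.NB.pf_DCP

theorem pf_SWX : T_SWX := Pool.Agent.H65.OQ.SWX.swx 

theorem pf_SWT : T_SWT := Pool.Agent.H70.OQ.SWT.swt pf_SWX

theorem pf_RED : T_RED := Pool.Agent.H93.OQ.RED.red pf_SWT

theorem pf_SYM : T_SYM := Pool.Agent.H62.OQ.sym 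

theorem pf_UNG : T_UNG := Pool.Agent.H42.OQ.UNG.ung Pool.Agent.H6.NB.pf_COD

theorem pf_UWS : T_UWS := Pool.Agent.H62.OQ.uws 

theorem pf_TB1 : T_TB1 := Pool.Agent.H79.OQ.TB1.tb1 pf_RED pf_CL0 pf_DTP pf_UWS pf_LWS

theorem pf_TBI : T_TBI := Pool.Agent.H79.OQ.TBI.tbi pf_TB1 pf_RED pf_SYM pf_LIV pf_UWS pf_LWS

theorem pf_TBL : T_TBL := Pool.Agent.H79.OQ.TBL.tbl pf_TBI pf_FMM

theorem pf_SGG : T_SGG := Pool.Agent.H70.OQ.SGG.sgg pf_EXJ pf_TBL Pool.Agent.H6.NB.pf_BBV Pool.Agent.H6.NB.pf_PCG pf_BLG pf_BUG pf_CLH pf_NST Pool.Agent.H6.NB.pf_COD pf_LKG pf_FMG pf_LAK Pool.Agent.H6.NB.pf_FIS Pool.Agent.H6.NB.pf_NUM pf_PRG Pool.Agent.H6.NB.pf_L12 pf_EXG pf_MEG pf_NDV pf_SPC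

theorem pf_FNG : T_FNG := Pool.Agent.H48.OQ.FNG.fng pf_SGG pf_BLG pf_BUG pf_LAK Pool.Agent.H6.NB.pf_DCC pf_ING pf_SPC

theorem pf_YEG : T_YEG := Pool.Agent.H70.OQ.YEG.yeg Pool.Agent.H6.NB.pf_YES

end Pool.Agent.H70.OQ
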