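import Pool.Agent.H6.NB.Stmt

/-!
# For every k an oracle relative to which Σ_k is contained in BQP but Σ_(k+1) ∩ Π_(k+1) is not: definitions

The quantum query algorithms `QAlg`, the decision trees `DT` over an oracle, the strings `inst`, `key`,
`blk` and the quantum algorithm `yesProb` are those of `Pool.Agent.H6.NB.Stmt`.
-/

set_option autoImplicit false

namespace Pool.Agent.H70.OQ

open Pool.Agent.H6.NB

/-- `Alt R b k P`: the statement `Q₁ w₁ Q₂ w₂ … Q_k w_k, P [w₁, …, w_k]` with alternating quantifiers over
the strings which satisfy `R`, where `Q₁ = ∃` if `b = true` and `Q₁ = ∀` if `b = false`. -/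
def Alt (R : List Bool → Prop) : Bool → ℕ → (List (List Bool) → Prop) → Prop
  | _, 0, P => P []
  | true, k + 1, P => ∃ w, R w ∧ Alt R false k fun ws => P (w :: ws)
  | false, k + 1, P => ∀ w, R w → Alt R true k fun ws => P (w :: ws)

/-- A polynomial-time oracle machine with `k` alternating quantifiers, the first of which is `∃` (a
`Σ_k` machine), as far as its dependence on the oracle is concerned: for an input `x` and strings
`w₁, …, w_k` of length at most `|x| ^ c + c` it makes at most `|x| ^ c + c` adaptive queries of length at
most `|x| ^ c + c`, described by the decision tree `tree x [w₁, …, w_k]`. (No uniformity is required.) -/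
structure Machine (k : ℕ) where
  c : ℕ
  tree : List Bool → List (List Bool) → DT
  depth_le : ∀ x ws, ws.length = k → (∀ w ∈ ws, w.length ≤ x.length ^ c + c) →
    (tree x ws).depth ≤ x.length ^ c + c
  short : ∀ x ws, ws.length = k → (∀ w ∈ ws, w.length ≤ x.length ^ c + c) →
    (tree x ws).Short (x.length ^ c + c)

/-- The language of a `Σ_k` machine relative to the oracle `O`: `x` is a member iff
`∃ w₁ ∀ w₂ ∃ w₃ …` (lengths at most `|x| ^ c + c`) the computation accepts. -/
def Machine.lang {k : ℕ} (M : Machine k) (O : List Bool → Bool) : Set (List Bool) :=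
  {x | Alt (fun w => w.length ≤ x.length ^ M.c + M.c) true k fun ws => (M.tree x ws).eval O = true}

/-- `Nd O k l w`: `∃ v₁ ∀ v₂ ∃ v₃ … Q v_k` the oracle does not contain (`k` odd) or contains (`k` even)
the string `w v₁ ⋯ v_k`; here `|v₁| = l, |v₂| = 2 l, |v₃| = 4 l, …`. -/
def Nd (O : List Bool → Bool) : ℕ → ℕ → List Bool → Prop
  | 0, _, w => O w = true
  | k + 1, l, w => ∃ v : List Bool, v.length = l ∧ ¬ Nd O k (2 * l) (w ++ v)

/-- The string `u` is special: `∀ v₁ ∃ v₂ ∀ v₃ … Q v_k` the oracle contains (`k` odd) or does not contain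
(`k` even) the string `0 u v₁ ⋯ v_k`; here `|v_j| = 2 ^ j |u|`. -/
def Special (k : ℕ) (O : List Bool → Bool) (u : List Bool) : Prop := ¬ Nd O k (2 * u.length) (false :: u)

/-- For every `n` exactly one string of length `n` is special. -/
def OneSpecial (k : ℕ) (O : List Bool → Bool) : Prop := ∀ n : ℕ, ∃! u : List Bool, u.length = n ∧ Special k O u

/-- `x` is a member iff there is a special string `u` of length `|x|` whose first bit is `1`. -/
def hlang (k : ℕ) (O : List Bool → Bool) : Set (List Bool) :=
  {x | ∃ u : List Bool, u.length = x.length ∧ u.head? = some true ∧ Special k O u}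

end Pool.Agent.H70.OQ
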