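import Pool.Agent.H6.NB.Targets
import Pool.Agent.H68.AC.Targets
import Pool.Agent.H70.OQ.Stmt

/-!
# For every k an oracle with Σ_k in BQP and Σ_(k+1) not in BQP: definitions for the proof
-/

set_option autoImplicit false

namespace Pool.Agent.H70.OQ

open Finset Pool.Agent.H6.NB

/-! ## Part A: formulas -/

/-- `f` is computed by a formula of depth `d` over decision trees of depth at most `t`; the gates are
disjunctions, with arbitrary signs, of at most `S` functions. -/
def Fm {V : Type} (S t : ℕ) : ℕ → ((V → Bool) → Bool) → Prop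
  | 0, f => ∃ T : Pool.Agent.H68.AC.DT V, T.depth ≤ t ∧ ∀ y, T.eval y = f y
  | d + 1, f => ∃ (m : ℕ) (g : Fin m → (V → Bool) → Bool) (b : Fin m → Bool), m ≤ S ∧
      (∀ i, Fm S t d (g i)) ∧ ∀ y, (f y = true ↔ ∃ i, g i y = b i)

/-- `0`-`1` indicator. -/
noncomputable def ic (p : Prop) : ℝ := by
  classical exact if p then 1 else 0

/-! ## Part B: the tables -/

/-- The nodes of level `i`: a row `x` and `i` choices. -/
def Node (X : Type) (Y : ℕ → Type) : ℕ → Type
  | 0 => X
  | i + 1 => Node X Y i × Y i

/-- The hidden children of all nodes of levels below `k`. -/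
def Hid (X : Type) (Y : ℕ → Type) : ℕ → Type
  | 0 => Unit
  | k + 1 => Hid X Y k × (Node X Y k → Y k)

/-- The nodes of each level are finitely many. -/
@[instance_reducible] def fNode (X : Type) (Y : ℕ → Type) [Fintype X] [∀ i, Fintype (Y i)] :
    (i : ℕ) → Fintype (Node X Y i)
  | 0 => inferInstanceAs (Fintype X)
  | i + 1 => by
    haveI := fNode X Y i
    exact inferInstanceAs (Fintype (Node X Y i × Y i))

instance {X : Type} {Y : ℕ → Type} [Fintype X] [∀ i, Fintype (Y i)] (i : ℕ) : Fintype (Node X Y i) :=
  fNode X Y i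

/-- Equality of nodes is decidable. -/
@[instance_reducible] def dNode (X : Type) (Y : ℕ → Type) [DecidableEq X] [∀ i, DecidableEq (Y i)] :
    (i : ℕ) → DecidableEq (Node X Y i)
  | 0 => inferInstanceAs (DecidableEq X)
  | i + 1 => by
    haveI := dNode X Y i
    exact inferInstanceAs (DecidableEq (Node X Y i × Y i))

instance {X : Type} {Y : ℕ → Type} [DecidableEq X] [∀ i, DecidableEq (Y i)] (i : ℕ) :
    DecidableEq (Node X Y i) := dNode X Y i

/-- The hidden choices are finitely many. -/
@[instance_reducible] def fHid (X : Type) (Y : ℕ → Type) [Fintype X] [DecidableEq X] [∀ i, Fintype (Y i)]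
    [∀ i, DecidableEq (Y i)] : (i : ℕ) → Fintype (Hid X Y i)
  | 0 => inferInstanceAs (Fintype Unit)
  | i + 1 => by
    haveI := fHid X Y i
    exact inferInstanceAs (Fintype (Hid X Y i × (Node X Y i → Y i)))

instance {X : Type} {Y : ℕ → Type} [Fintype X] [DecidableEq X] [∀ i, Fintype (Y i)]
    [∀ i, DecidableEq (Y i)] (i : ℕ) : Fintype (Hid X Y i) := fHid X Y i

/-- The values of the nodes of the next level: only the hidden child `h a` of `a` differs from `true`;
its value is the negation of the value of `a`. -/
def glu {A Z : Type} [DecidableEq Z] (h : A → Z) (s : A → Bool) : A × Z → Bool :=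
  fun v => !(s v.1 && decide (v.2 = h v.1))

/-- The values of the nodes of level `k`, if the rows have the values `b`. -/
def sv {X : Type} {Y : ℕ → Type} [∀ i, DecidableEq (Y i)] (b : X → Bool) :
    (k : ℕ) → Hid X Y k → Node X Y k → Bool
  | 0, _ => b
  | k + 1, H => glu H.2 (sv b k H.1)

/-- The table without special rows. -/
def tabT {X : Type} {Y : ℕ → Type} [∀ i, DecidableEq (Y i)] (k : ℕ) (H : Hid X Y k) :
    Node X Y k → Bool := sv (fun _ => true) k H

/-- The table whose only special row is `x`. -/
def tabU {X : Type} {Y : ℕ → Type} [DecidableEq X] [∀ i, DecidableEq (Y i)] (k : ℕ) (H : Hid X Y k)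
    (x : X) : Node X Y k → Bool := sv (fun x' => !decide (x' = x)) k H

/-- The rows to which `f` is sensitive. -/
def senT {X : Type} {Y : ℕ → Type} [Fintype X] [DecidableEq X] [∀ i, DecidableEq (Y i)] (k : ℕ)
    (f : (Node X Y k → Bool) → Bool) (H : Hid X Y k) : Finset X :=
  univ.filter fun x => f (tabU k H x) ≠ f (tabT k H)

/-! ## Part C: random restrictions of tables -/

/-- The weight of the hidden children `h`: `h a` is uniform on `L a`. -/
noncomputable def uw {A Z : Type} [Fintype A] [DecidableEq Z] (L : A → Finset Z) (h : A → Z) : ℝ :=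
  ∏ a, if h a ∈ L a then 1 / ((L a).card : ℝ) else 0

/-- The weight of the set of live elements: each element is live with probability `q`. -/
noncomputable def lw {A : Type} [Fintype A] (q : ℝ) (l : A → Bool) : ℝ := ∏ a, if l a then q else 1 - q

/-- The restriction of the positions of the last level: those which are not hidden children are `true`,
the hidden child of a live node is free, the hidden children of the other nodes are `false`. -/
def kap {A Z : Type} [DecidableEq Z] (h : A → Z) (l : A → Bool) : Pool.Agent.H68.AC.PA (A × Z) :=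
  fun v => if v.2 = h v.1 then (if l v.1 then none else some false) else some true

/-- The formula `f` of depth `d + 1` becomes a formula of depth `d` if the nodes which are not live have
the value `true`. -/
def Red {A Z : Type} [DecidableEq Z] (S w d : ℕ) (f : (A × Z → Bool) → Bool) (h : A → Z)
    (l : A → Bool) : Prop :=
  ∃ f' : (A → Bool) → Bool, Fm S w d f' ∧ ∀ s : A → Bool, (∀ a, l a = false → s a = true) →
    f' s = f (glu h s)

/-- The live children of `a`, or all children if there are none. -/
def Lof {A Z : Type} [Fintype Z] [DecidableEq Z] (l : A × Z → Bool) (a : A) : Finset Z :=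
  if (univ.filter fun z => l (a, z) = true) = ∅ then univ else univ.filter fun z => l (a, z) = true

/-- The error of the table lemma. -/
noncomputable def errT (X : Type) (Y : ℕ → Type) [Fintype X] [∀ i, Fintype (Y i)] (S w G : ℕ) (q : ℝ)
    (k : ℕ) : ℝ :=
  2 / q * (5 / 2 ^ (w + 1)) + ∑ i ∈ range k, (((S : ℝ) + 1) ^ (i + 1) * (5 / 2 ^ (w + 1)) +
    (Fintype.card (Node X Y i) : ℝ) ^ 2 * (1 - q) ^ G)

/-! ## Part D: the ideal world

`T : B → Bool` is a table, `e : Ω → Bool` are the encrypted answers, `acc s T e` is the answer of the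
instance `s`. -/

/-- Functions of a table and of encrypted answers. -/
abbrev Gn (B Ω : Type) : Type := (B → Bool) → (Ω → Bool) → Bool

/-- `G` depends only on the encrypted answers of levels below `j`. -/
def LocG {B Ω : Type} (lev : Ω → ℕ) (j : ℕ) (G : Gn B Ω) : Prop :=
  ∀ T e e', (∀ s, lev s < j → e s = e' s) → G T e = G T e'

/-- `G` is a formula of depth `d` over decision trees of depth `t` and depends only on the encrypted
answers of levels below `j`. -/
def Fj {B Ω : Type} (lev : Ω → ℕ) (S t d j : ℕ) (G : Gn B Ω) : Prop :=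
  Fm S t d (fun y : B ⊕ Ω → Bool => G (fun b => y (.inl b)) fun s => y (.inr s)) ∧ LocG lev j G

/-- The hypotheses on the levels. -/
structure Lvg {B Ω : Type} (acc : Ω → Gn B Ω) (lev : Ω → ℕ) (h : ℕ) : Prop where
  loc : ∀ s, LocG lev (lev s) (acc s)
  lt : ∀ s, lev s < h

/-- The encrypted answers computed from the keys `θ` (the first `k` levels). -/
def elG {B Ω : Type} (acc : Ω → Gn B Ω) (T : B → Bool) (θ : Ω → Bool) : ℕ → Ω → Bool
  | 0 => fun _ => false
  | k + 1 => fun s => xor (acc s T (elG acc T θ k)) (θ s)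

/-- The keys computed from the encrypted answers. -/
def thG {B Ω : Type} (acc : Ω → Gn B Ω) (T : B → Bool) (e : Ω → Bool) : Ω → Bool :=
  fun s => xor (e s) (acc s T e)

/-- The encrypted answers for the table `U`, with the keys which for the table `T` give the encrypted
answers `e`. -/
def exG {B Ω : Type} (acc : Ω → Gn B Ω) (h : ℕ) (T U : B → Bool) (e : Ω → Bool) : Ω → Bool :=
  elG acc U (thG acc T e) h

/-- The encrypted answer of `s` changes when `T` is replaced by `U`. -/
def dlG {B Ω : Type} (acc : Ω → Gn B Ω) (h : ℕ) (T U : B → Bool) (e : Ω → Bool) (s : Ω) : Bool :=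
  xor (e s) (exG acc h T U e s)

section

variable {X B Ω : Type} [Fintype X]

/-- The rows `x` for which the answer of `s` changes when `T` is replaced by `U x`. -/
def dsG (acc : Ω → Gn B Ω) (h : ℕ) (T : B → Bool) (U : X → B → Bool) (e : Ω → Bool) (s : Ω) :
    Finset X := univ.filter fun x => dlG acc h T (U x) e s = true

/-- All instances of levels below `j` are typical. -/
def TyG (acc : Ω → Gn B Ω) (lev : Ω → ℕ) (h : ℕ) (K : ℕ → ℕ) (j : ℕ) (T : B → Bool) (U : X → B → Bool)
    (e : Ω → Bool) : Prop := ∀ s, lev s < j → (dsG acc h T U e s).card ≤ K (lev s)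

/-- The rows `x` for which `G` changes when `T` is replaced by `U x`. -/
def dfx (acc : Ω → Gn B Ω) (h : ℕ) (G : Gn B Ω) (T : B → Bool) (U : X → B → Bool) (e : Ω → Bool) :
    Finset X := univ.filter fun x => G (U x) (exG acc h T (U x) e) ≠ G T e

/-- The rows `x` for which `G` changes when `T` is replaced by `U x` and only the encrypted answers of
levels below `j` are adapted. -/
def dfh (acc : Ω → Gn B Ω) (lev : Ω → ℕ) (h : ℕ) (G : Gn B Ω) (j : ℕ) (T : B → Bool)
    (U : X → B → Bool) (e : Ω → Bool) : Finset X :=
  univ.filter fun x => G (U x) (fun s => if lev s < j then exG acc h T (U x) e s else e s) ≠ G T e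

/-- Flip the answers of level `j` according to the rows in `z`. -/
def flG (acc : Ω → Gn B Ω) (lev : Ω → ℕ) (h : ℕ) (T : B → Bool) (U : X → B → Bool) (j : ℕ)
    (e : Ω → Bool) (z : X → Bool) : Ω → Bool := fun s =>
  if lev s = j then
    xor (e s) (decide (Odd (univ.filter fun x => z x = true ∧ dlG acc h T (U x) e s = true).card))
  else e s

/-- The value of `G` as a function of the flips. -/
def gz (acc : Ω → Gn B Ω) (lev : Ω → ℕ) (h : ℕ) (G : Gn B Ω) (T : B → Bool) (U : X → B → Bool) (j : ℕ)
    (e : Ω → Bool) (z : X → Bool) : Bool := G T (flG acc lev h T U j e z)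

/-- The value of `G` for the table `U x` as a function of the flips. -/
def hz (acc : Ω → Gn B Ω) (lev : Ω → ℕ) (h : ℕ) (G : Gn B Ω) (T : B → Bool) (U : X → B → Bool) (j : ℕ)
    (e : Ω → Bool) (x : X) (z : X → Bool) : Bool :=
  G (U x) fun s => if lev s < j then exG acc h T (U x) e s else flG acc lev h T U j e z s

end

/-- Flip one bit. -/
def flp {X : Type} [DecidableEq X] (z : X → Bool) (x : X) : X → Bool := Function.update z x (!z x)

/-- The free variables of `κ` are filled with `z`. -/
def cpl {X : Type} (κ : Pool.Agent.H68.AC.PA X) (z : X → Bool) : X → Bool := fun x => (κ x).getD (z x)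

/-- The restriction rate for decision trees of depth `w`. -/
noncomputable def qw (w : ℕ) : ℝ := 1 / (128 * w)

/-- The parameters of the induction over the levels: `N` rows, formulas of depth `d` and size `S` over
trees of depth `t`, `h` levels; at level `j`: sensitivity `k j`, error `δ j`; `w j`, `r j` are the
parameters of the step from `j` to `j + 1`. -/
structure Prm (N S t d h : ℕ) (w r k : ℕ → ℕ) (δ : ℕ → ℝ) : Prop where
  t_pos : 1 ≤ t
  k_pos : ∀ j, 1 ≤ k j
  w_pos : ∀ j, 1 ≤ w j
  δ_nonneg : ∀ j, 0 ≤ δ j
  kS : ∀ j < h, (2 * (w j + (2 * w j + 1) * (4 * k j + r j)) : ℝ) ≤ k (j + 1) * qw (w j) ^ (d + 2)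
  dS : ∀ j < h, 2 / qw (w j) ^ (d + 2) * (((N : ℝ) + 1) * ((S : ℝ) + 2 ^ (t * k j) + 1) ^ (d + 2) *
    2 / 2 ^ w j + 1 / 4 ^ r j + (N : ℝ) ^ r j * δ j) ≤ δ (j + 1)

/-! ## Part E: blocks -/

/-- Positions of the oracle. -/
inductive PosG (B Ω : Type) (nn qb : Ω → ℕ) : Type
  | cst (b : Bool) : PosG B Ω nn qb
  | bas (a : B) : PosG B Ω nn qb
  | key (s : Ω) : PosG B Ω nn qb
  | blk (s : Ω) (i : Fin (nn s)) (v : VV (qb s)) : PosG B Ω nn qb

/-- The value of the oracle at a position. -/
def vlG {B Ω : Type} {nn qb : Ω → ℕ} (T : B → Bool) (e : Ω → Bool) (P : Blk nn qb) :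
    PosG B Ω nn qb → Bool
  | .cst b => b
  | .bas a => T a
  | .key s => e s
  | .blk s i v => P s i v

/-- The position belongs to the constants, the table, or to an instance of level below `j`. -/
def LwG {B Ω : Type} {nn qb : Ω → ℕ} (lev : Ω → ℕ) (j : ℕ) : PosG B Ω nn qb → Prop
  | .cst _ => True
  | .bas _ => True
  | .key s => lev s < j
  | .blk s _ _ => lev s < j

/-- The hypotheses on the instances. -/
structure Syg {B Ω : Type} {nn qb : Ω → ℕ} (D : Ω → (PosG B Ω nn qb → Bool) → Bool) (lev : Ω → ℕ)
    (S t d h : ℕ) : Prop where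
  fm : ∀ s, Fm S t d (D s)
  low : ∀ s y y', (∀ c, LwG lev (lev s) c → y c = y' c) → D s y = D s y'
  lt : ∀ s, lev s < h

/-- The answers of the instances for given blocks. -/
def accG {B Ω : Type} {nn qb : Ω → ℕ} (D : Ω → (PosG B Ω nn qb → Bool) → Bool) (P : Blk nn qb) :
    Ω → Gn B Ω := fun s T e => D s (vlG T e P)

/-! ## Part F: oracles -/

/-- The answer of `A` for the instance `s` depends only on the strings `w` with `|w| ^ 2 ≤ |s|`. -/
def LocA (A : List Bool → (List Bool → Bool) → Prop) : Prop :=
  ∀ s O O', (∀ w : List Bool, w.length ^ 2 ≤ s.length → O w = O' w) → (A s O ↔ A s O')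

open Classical in
/-- `O` is the oracle built from the seed `σ`. -/
def Bldg (A : List Bool → (List Bool → Bool) → Prop) (σ O : List Bool → Bool) : Prop :=
  ∀ w, O w = xor (σ w) (decide (∃ s, w = key s ∧ A s O))

/-- The instance `s` of the universal `Σ_k` machine has the answer yes. -/
def acck (k : ℕ) (prog : List Bool → List (List Bool) → DT) (s : List Bool) (O : List Bool → Bool) :
    Prop := Alt (fun w => w.length ^ 2 ≤ s.length) true k fun ws => (prog s ws).eval O = true

/-- The size condition on the universal machine. -/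
def Smallk (k : ℕ) (prog : List Bool → List (List Bool) → DT) : Prop :=
  ∀ s ws, ws.length = k → (∀ w ∈ ws, w.length ^ 2 ≤ s.length) → (prog s ws).depth ^ 2 ≤ s.length ∧
    ∃ m, m ^ 2 ≤ s.length ∧ (prog s ws).Short m

/-- The strings which label the children at level `i` in the stage `n`. -/
abbrev Ys (n i : ℕ) : Type := Fin (2 ^ (i + 1) * n) → Bool

/-- The nodes of the stage `n`. -/
abbrev Nn (n i : ℕ) : Type := Node (Fin n → Bool) (Ys n) i

/-- The string of a node. -/
def nstr (n : ℕ) : (i : ℕ) → Nn n i → List Bool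
  | 0, x => List.ofFn (x : Fin n → Bool)
  | i + 1, a => nstr n i a.1 ++ List.ofFn (a.2 : Ys n i)

/-- The positions of the stage `n`. -/
abbrev Cg (k n a : ℕ) : Type := PosG (Nn n k) (Om n a) (fun s => ns s.1) (fun s => qs s.1)

open Classical in
/-- The position of a string; the strings which do not belong to the stage have the value given by `o`. -/
noncomputable def clg (k n a : ℕ) (o : List Bool → Bool) (w : List Bool) : Cg k n a :=
  if h : ∃ p : Nn n k, w = false :: nstr n k p then .bas h.choose
  else if h : ∃ s : Om n a, w = key s.1 then .key h.choose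
  else if h : ∃ p : Σ s : Om n a, Fin (ns s.1) × VV (qs s.1),
      w = Pool.Agent.H6.NB.blk p.1.1 p.2.1 p.2.2.1 (List.ofFn p.2.2.2) then
    .blk h.choose.1 h.choose.2.1 h.choose.2.2
  else .cst (o w)

/-- The seed of the stage. -/
noncomputable def sdg (k n a : ℕ) (σ₀ : List Bool → Bool) (T : Nn n k → Bool) (κ : Om n a → Bool)
    (P : Blk (fun s : Om n a => ns s.1) fun s => qs s.1) : List Bool → Bool :=
  fun w => vlG T κ P (clg k n a σ₀ w)

end Pool.Agent.H70.OQ
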